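import Pool.Agent.helper2.EY.SheetB
import Pool.Agent.helper5.EY.Congr

set_option autoImplicit false
set_option linter.unusedSectionVars false

/-!
# EY-Sheet: the special sheet lemma

`P` a form of degree `q + 1` in `N` variables, nonsingular on the hyperplane `b = 0`: the local length at `0` of
`∇P = τ b^q x` is `q^N + I(P)`, `I(P)` the sum of the multiplicities of the eigenscheme of `P` at the singular points of `P`.
-/

namespace EY

open MvPolynomial Pool.Agent.helper62.NP

section Coord

/-- coordinates with `β` as first one -/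
theorem exists_coord {n : ℕ} (β : Fin (n + 1) → ℂ) (hβ : β ≠ 0) :
    ∃ (S : Matrix (Option (Fin n)) (Option (Fin n)) ℂ) (a : Fin (n + 1) → Option (Fin n) → ℂ)
      (b : Option (Fin n) → Fin (n + 1) → ℂ), Chg S a b ∧ b none = β := by
  classical
  obtain ⟨i0, hi0⟩ : ∃ i, β i ≠ 0 := by
    by_contra h
    push Not at h
    exact hβ (funext h)
  obtain ⟨e, he⟩ : ∃ e : Option (Fin n) ≃ Fin (n + 1), e none = i0 :=
    ⟨(finSuccEquiv' i0).symm, by simp⟩
  let b : Option (Fin n) → Fin (n + 1) → ℂ := fun k => k.elim β fun j => Pi.single (e (some j)) 1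
  let a' : Option (Fin n) → Option (Fin n) → ℂ := fun k l =>
    k.elim (l.elim (β i0)⁻¹ fun j => -(β (e (some j)) * (β i0)⁻¹)) fun j => if l = some j then 1 else 0
  let a : Fin (n + 1) → Option (Fin n) → ℂ := fun i => a' (e.symm i)
  have ha : ∀ k l, a (e k) l = a' k l := fun k l => by simp [a]
  have hab : ∀ i j, ∑ k, a i k * b k j = if i = j then 1 else 0 := by
    intro i j
    obtain ⟨k1, rfl⟩ := e.surjective i
    obtain ⟨k2, rfl⟩ := e.surjective j
    simp only [ha, e.injective.eq_iff]
    rw [Fintype.sum_option]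
    cases k1 with
    | some j1 =>
      have h1 : a' (some j1) none = 0 := by simp [a']
      rw [h1, zero_mul, zero_add, Finset.sum_eq_single j1]
      · cases k2 with
        | none => simp [a', b, Pi.single_apply]
        | some j2 =>
          simp only [a', b, Option.elim, Pi.single_apply, e.injective.eq_iff, Option.some.injEq]
          simp [eq_comm]
      · intro j _ hj
        simp [a', hj]
      · intro h; exact absurd (Finset.mem_univ _) h
    | none =>
      cases k2 with
      | none =>
        rw [Finset.sum_eq_zero]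
        · simp [a', b, he, hi0]
        · intro j _
          simp [b, Pi.single_apply]
      | some j2 =>
        rw [Finset.sum_eq_single j2]
        · simp [a', b, Pi.single_apply]
          ring
        · intro j _ hj
          have : ¬ (j2 = j) := fun h => hj h.symm
          simp [b, Pi.single_apply, this]
        · intro h; exact absurd (Finset.mem_univ _) h
  have hba : ∀ k l, ∑ i, b k i * a i l = if k = l then 1 else 0 := by
    intro k l
    rw [← e.sum_comp, Fintype.sum_option]
    simp only [ha]
    cases k with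
    | some j =>
      have h1 : b (some j) (e none) = 0 := by simp [b, Pi.single_apply]
      rw [h1, zero_mul, zero_add, Finset.sum_eq_single j]
      · cases l with
        | none => simp [a', b]
        | some j' =>
          simp only [a', b, Option.elim, Pi.single_eq_same, one_mul, Option.some.injEq]
          simp [eq_comm]
      · intro j' _ hj'
        simp [b, Pi.single_apply, hj']
      · intro h; exact absurd (Finset.mem_univ _) h
    | none =>
      cases l with
      | none =>
        rw [Finset.sum_eq_zero]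
        · simp [a', b, he, hi0]
        · intro j _
          simp [a']
      | some j' =>
        rw [Finset.sum_eq_single j']
        · simp only [a', b, Option.elim, he, if_true]
          field_simp
          simp
        · intro j _ hj
          have : ¬ (j' = j) := fun h => hj h.symm
          simp [a', this]
        · intro h; exact absurd (Finset.mem_univ _) h
  exact ⟨fun k l => ∑ i, a i k * a i l, a, b, ⟨hab, hba, fun k l => rfl⟩, rfl⟩

end Coord

section Transf

variable {n : ℕ} {S : Matrix (Option (Fin n)) (Option (Fin n)) ℂ} {a : Fin (n + 1) → Option (Fin n) → ℂ}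
  {b : Option (Fin n) → Fin (n + 1) → ℂ}

theorem lsub_pd (h : Chg S a b) (P : MvPolynomial (Fin (n + 1)) ℂ) (i : Fin (n + 1)) :
    lsub a (pderiv i P) = ∑ k, C (b k i) * pderiv k (lsub a P) := by
  simp only [pderiv_lsub, Finset.mul_sum]
  rw [Finset.sum_comm]
  have h1 : ∀ j, ∑ k, C (b k i) * (C (a j k) * lsub a (pderiv j P)) =
      C (if j = i then 1 else 0) * lsub a (pderiv j P) := by
    intro j
    rw [← h.ab j i, map_sum, Finset.sum_mul]
    exact Finset.sum_congr rfl fun k _ => by rw [map_mul]; ring
  simp only [h1]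
  rw [Finset.sum_eq_single i (fun j _ hj => by rw [if_neg hj, map_zero, zero_mul])
    (fun hi => absurd (Finset.mem_univ i) hi), if_pos rfl, map_one, one_mul]

theorem lsub_Xi (h : Chg S a b) (i : Fin (n + 1)) : lsub a (X i) = ∑ k, C (b k i) * sl S k := by
  simp only [chg_sl h, Finset.mul_sum]
  rw [Finset.sum_comm]
  have h1 : ∀ j, ∑ k, C (b k i) * (C (a j k) * lsub a (X j)) =
      C (if j = i then 1 else 0) * lsub a (X j) := by
    intro j
    rw [← h.ab j i, map_sum, Finset.sum_mul]
    exact Finset.sum_congr rfl fun k _ => by rw [map_mul]; ring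
  simp only [h1]
  rw [Finset.sum_eq_single i (fun j _ hj => by rw [if_neg hj, map_zero, zero_mul])
    (fun hi => absurd (Finset.mem_univ i) hi), if_pos rfl, map_one, one_mul]

theorem lsub_back (h : Chg S a b) (g : MvPolynomial (Option (Fin n)) ℂ) : lsub a (lsub b g) = g :=
  lsub_comp b a h.ba g

theorem lsub_forth (h : Chg S a b) (g : MvPolynomial (Fin (n + 1)) ℂ) : lsub b (lsub a g) = g :=
  lsub_comp a b h.ab g

theorem lsub_lin (h : Chg S a b) : lsub a (linForm (b none)) = X none := by
  have h3 : linForm (b none) = lsub b (X none) := (lsub_X _ _).symm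
  rw [h3, lsub_back h]

/-- values -/
theorem ab_val (h : Chg S a b) (v : Fin (n + 1) → ℂ) :
    (fun i => ∑ k, a i k * ∑ j, b k j * v j) = v := by
  funext i
  simp only [Finset.mul_sum]
  rw [Finset.sum_comm]
  have h1 : ∀ j, ∑ k, a i k * (b k j * v j) = (if i = j then 1 else 0) * v j := by
    intro j
    rw [← h.ab i j, Finset.sum_mul]
    exact Finset.sum_congr rfl fun k _ => by ring
  simp only [h1]
  rw [Finset.sum_eq_single i (fun j _ hj => by rw [if_neg (Ne.symm hj), zero_mul])
    (fun hi => absurd (Finset.mem_univ i) hi), if_pos rfl, one_mul]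

theorem ba_val (h : Chg S a b) (w : Option (Fin n) → ℂ) :
    (fun k => ∑ i, b k i * ∑ l, a i l * w l) = w := by
  funext k
  simp only [Finset.mul_sum]
  rw [Finset.sum_comm]
  have h1 : ∀ l, ∑ i, b k i * (a i l * w l) = (if k = l then 1 else 0) * w l := by
    intro l
    rw [← h.ba k l, Finset.sum_mul]
    exact Finset.sum_congr rfl fun i _ => by ring
  simp only [h1]
  rw [Finset.sum_eq_single k (fun j _ hj => by rw [if_neg (Ne.symm hj), zero_mul])
    (fun hi => absurd (Finset.mem_univ k) hi), if_pos rfl, one_mul]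

theorem eval_dhm (y : Option (Fin n) → ℂ) (F : MvPolynomial (Option (Fin n)) ℂ) :
    eval y (dhm F) = eval (fun o => o.elim 1 fun j => y (some j)) F := by
  have h : (aeval y : MvPolynomial (Option (Fin n)) ℂ →ₐ[ℂ] ℂ).comp dhm =
      aeval (fun o : Option (Fin n) => o.elim 1 fun j => y (some j)) := by
    apply algHom_ext
    intro o
    rw [AlgHom.comp_apply]
    unfold dhm
    rw [aeval_X]
    cases o with
    | none => simp
    | some i => simp
  have h1 := DFunLike.congr_fun h F
  rw [AlgHom.comp_apply] at h1
  simpa [aeval_eq_eval] using h1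

/-- the generators of the system in the old coordinates -/
noncomputable def sysO (P : MvPolynomial (Fin (n + 1)) ℂ) (β : Fin (n + 1) → ℂ) (q : ℕ) (τ : ℂ)
    (i : Fin (n + 1)) : MvPolynomial (Fin (n + 1)) ℂ := pderiv i P - C τ * linForm β ^ q * X i

theorem sysA_lsub (h : Chg S a b) (P : MvPolynomial (Fin (n + 1)) ℂ) (q : ℕ) (τ : ℂ)
    (k : Option (Fin n)) : lsub b (sysA (lsub a P) S q τ k) =
      ∑ i, C (a i k) * sysO P (b none) q τ i := by
  unfold sysA sysO
  have h3 : lsub b (X none) = linForm (b none) := lsub_X _ _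
  rw [map_sub, chg_pderiv h, lsub_forth h, map_mul, map_mul, map_pow, h3, chg_lsub_sl h, lsub_C,
    Finset.mul_sum, ← Finset.sum_sub_distrib]
  exact Finset.sum_congr rfl fun i _ => by ring

theorem sysO_lsub (h : Chg S a b) (P : MvPolynomial (Fin (n + 1)) ℂ) (q : ℕ) (τ : ℂ)
    (i : Fin (n + 1)) : lsub a (sysO P (b none) q τ i) = ∑ k, C (b k i) * sysA (lsub a P) S q τ k := by
  unfold sysA sysO
  rw [map_sub, map_mul, map_mul, map_pow, lsub_lin h, lsub_Xi h, lsub_pd h, lsub_C,
    Finset.mul_sum, ← Finset.sum_sub_distrib]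
  exact Finset.sum_congr rfl fun i _ => by ring

theorem mulAt_sysO (h : Chg S a b) {q : ℕ} (hq : 2 ≤ q) {P : MvPolynomial (Fin (n + 1)) ℂ}
    (hP : P.IsHomogeneous (q + 1)) (τ : ℂ) :
    mulAt (Ideal.span (Set.range (sysO P (b none) q τ))) 0 =
      mulAt (Ideal.span (Set.range (sysA (lsub a P) S q τ))) 0 := by
  have hP' : (lsub a P).IsHomogeneous (q + 1) := lsub_isHomogeneous a hP
  refine mulAt_congr _ _ _ _ (lsub a) ?_ ?_ ?_ ?_
  · intro y
    refine ⟨lsub b y, ?_⟩
    rw [lsub_back h, sub_self]
    exact Ideal.zero_mem _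
  · intro x
    constructor
    · intro hx
      have h1 : ∀ f ∈ Ideal.span (Set.range (sysA (lsub a P) S q τ)),
          lsub b f ∈ Ideal.span (Set.range (sysO P (b none) q τ)) := by
        intro f hf
        induction hf using Submodule.span_induction with
        | mem x hx =>
          obtain ⟨k, rfl⟩ := hx
          rw [sysA_lsub h]
          exact Ideal.sum_mem _ fun i _ => Ideal.mul_mem_left _ _ (Ideal.subset_span ⟨i, rfl⟩)
        | zero => rw [map_zero]; exact Ideal.zero_mem _
        | add x y _ _ hx hy => rw [map_add]; exact Ideal.add_mem _ hx hy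
        | smul c x _ hx => rw [smul_eq_mul, map_mul]; exact Ideal.mul_mem_left _ _ hx
      have h2 := h1 _ hx
      rwa [lsub_forth h] at h2
    · intro hx
      induction hx using Submodule.span_induction with
      | mem x hx =>
        obtain ⟨i, rfl⟩ := hx
        rw [sysO_lsub h]
        exact Ideal.sum_mem _ fun i _ => Ideal.mul_mem_left _ _ (Ideal.subset_span ⟨i, rfl⟩)
      | zero => rw [map_zero]; exact Ideal.zero_mem _
      | add x y _ _ hx hy => rw [map_add]; exact Ideal.add_mem _ hx hy
      | smul c x _ hx => rw [smul_eq_mul, map_mul]; exact Ideal.mul_mem_left _ _ hx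
  · intro x
    rw [eval_lsub]
    congr 1
    congr 1
    funext i
    simp
  · rw [mem_span_eval]
    intro k
    unfold sysA
    have hd : (pderiv k (lsub a P)).IsHomogeneous q := by simpa using hP'.pderiv (i := k)
    have h4 : eval (0 : Option (Fin n) → ℂ) (pderiv k (lsub a P)) = 0 := by
      have h5 := eval_smul_hom hd 0 (0 : Option (Fin n) → ℂ)
      rw [zero_pow (by omega), zero_mul, smul_zero] at h5
      exact h5
    rw [map_sub, h4, map_mul, map_mul, map_pow, eval_X, Pi.zero_apply, zero_pow (by omega)]
    ring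

theorem dhm_none : dhm (X none : MvPolynomial (Option (Fin n)) ℂ) = 1 := by
  unfold dhm
  rw [aeval_X]
  rfl

theorem dhm_some (i : Fin n) : dhm (X (some i) : MvPolynomial (Option (Fin n)) ℂ) = X (some i) := by
  unfold dhm
  rw [aeval_X]
  rfl

/-- the eigenvalue form -/
noncomputable def evf (P : MvPolynomial (Fin (n + 1)) ℂ) (β : Fin (n + 1) → ℂ) :
    MvPolynomial (Fin (n + 1)) ℂ := ∑ j, C (β j) * pderiv j P

/-- the map back -/
noncomputable def phiB (P : MvPolynomial (Fin (n + 1)) ℂ) (b : Option (Fin n) → Fin (n + 1) → ℂ) (τ : ℂ) :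
    MvPolynomial (Option (Fin n)) ℂ →ₐ[ℂ] MvPolynomial (Fin (n + 1)) ℂ :=
  aeval fun o => o.elim (C τ⁻¹ * evf P (b none)) fun j => lsub b (X (some j))

theorem phiB_dhm (P : MvPolynomial (Fin (n + 1)) ℂ) (τ : ℂ) (F : MvPolynomial (Option (Fin n)) ℂ) :
    phiB P b τ (dhm F) = psi b (dehom F) := by
  have h : (phiB P b τ).comp dhm = (psi b).comp dehom := by
    apply algHom_ext
    intro o
    rw [AlgHom.comp_apply, AlgHom.comp_apply]
    cases o with
    | none => rw [dhm_none, dehom_X_none, map_one, map_one]
    | some i =>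
      rw [dhm_some, dehom_X_some]
      unfold phiB psi
      rw [aeval_X, aeval_X]
      rfl
  exact DFunLike.congr_fun h F

theorem sysB_mem (h : Chg S a b) (P : MvPolynomial (Fin (n + 1)) ℂ) (τ : ℂ) (j : Fin (n + 1)) :
    dhm (lsub a (pderiv j P)) - C τ * X none * dhm (lsub a (X j)) ∈
      Ideal.span (Set.range (sysB (lsub a P) S τ)) := by
  have h1 : dhm (lsub a (pderiv j P)) - C τ * X none * dhm (lsub a (X j)) =
      ∑ k, C (b k j) * sysB (lsub a P) S τ k := by
    have hC : ∀ c : ℂ, dhm (C c : MvPolynomial (Option (Fin n)) ℂ) = C c := fun c => (dhm (n := n)).commutes c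
    rw [lsub_pd h, lsub_Xi h, map_sum, map_sum, Finset.mul_sum, ← Finset.sum_sub_distrib]
    refine Finset.sum_congr rfl fun k _ => ?_
    unfold sysB
    rw [map_mul, map_mul, hC]
    ring
  rw [h1]
  exact Ideal.sum_mem _ fun k _ => Ideal.mul_mem_left _ _ (Ideal.subset_span ⟨k, rfl⟩)

theorem evf_mem (P : MvPolynomial (Fin (n + 1)) ℂ) (β : Fin (n + 1) → ℂ) (i : Fin (n + 1)) :
    pderiv i P - X i * evf P β ∈ chartIdeal P β := by
  have h1 : pderiv i P - X i * evf P β = ∑ j, C (β j) * (X j * pderiv i P - X i * pderiv j P) -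
      pderiv i P * (linForm β - 1) := by
    unfold evf linForm
    simp only [mul_sub, Finset.sum_sub_distrib, Finset.mul_sum]
    have h2 : ∀ j, C (β j) * (X j * pderiv i P) = pderiv i P * (C (β j) * X j) := fun j => by ring
    have h3 : ∀ j, C (β j) * (X i * pderiv j P) = X i * (C (β j) * pderiv j P) := fun j => by ring
    simp only [h2, h3]
    ring
  rw [h1]
  refine Ideal.sub_mem _ (Ideal.mem_sup_left (Ideal.sum_mem _ fun j _ => Ideal.mul_mem_left _ _
    (Ideal.subset_span ⟨j, i, rfl⟩))) (Ideal.mem_sup_right (Ideal.mul_mem_left _ _ (Ideal.subset_span rfl)))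

theorem phiB_sysB (h : Chg S a b) (P : MvPolynomial (Fin (n + 1)) ℂ) {τ : ℂ} (hτ : τ ≠ 0)
    (k : Option (Fin n)) : phiB P b τ (sysB (lsub a P) S τ k) ∈ chartIdeal P (b none) := by
  unfold sysB
  have h1 : phiB P b τ (X none) = C τ⁻¹ * evf P (b none) := by
    unfold phiB; rw [aeval_X]; rfl
  have h2 : phiB P b τ (C τ) = C τ := (phiB P b τ).commutes τ
  rw [map_sub, map_mul, map_mul, phiB_dhm, phiB_dhm, h1, h2]
  have h3 : (C τ * (C τ⁻¹ * evf P (b none)) : MvPolynomial (Fin (n + 1)) ℂ) = evf P (b none) := by
    rw [← mul_assoc, ← map_mul, mul_inv_cancel₀ hτ, map_one, one_mul]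
  rw [h3]
  have h4 := psi_dehom b (pderiv k (lsub a P))
  have h5 := psi_dehom b (sl S k)
  have h6 : psi b (dehom (pderiv k (lsub a P))) - evf P (b none) * psi b (dehom (sl S k)) =
      (psi b (dehom (pderiv k (lsub a P))) - lsub b (pderiv k (lsub a P))) -
      evf P (b none) * (psi b (dehom (sl S k)) - lsub b (sl S k)) +
      ∑ i, C (a i k) * (pderiv i P - X i * evf P (b none)) := by
    rw [chg_pderiv h, lsub_forth h, chg_lsub_sl h]
    simp only [mul_sub, Finset.sum_sub_distrib, Finset.mul_sum]
    have h7 : ∀ i, C (a i k) * (X i * evf P (b none)) = evf P (b none) * (C (a i k) * X i) :=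
      fun i => by ring
    simp only [h7]
    ring
  rw [h6]
  refine Ideal.add_mem _ (Ideal.sub_mem _ (Ideal.mem_sup_right h4)
    (Ideal.mul_mem_left _ _ (Ideal.mem_sup_right h5))) ?_
  exact Ideal.sum_mem _ fun i _ => Ideal.mul_mem_left _ _ (evf_mem P _ i)

theorem sub_phiB (h : Chg S a b) (P : MvPolynomial (Fin (n + 1)) ℂ) (τ : ℂ)
    (x : MvPolynomial (Fin (n + 1)) ℂ) : x - phiB P b τ (dhm (lsub a x)) ∈ chartIdeal P (b none) := by
  rw [phiB_dhm]
  have h1 := psi_dehom b (lsub a x)
  rw [lsub_forth h] at h1
  have h2 : x - psi b (dehom (lsub a x)) = -(psi b (dehom (lsub a x)) - x) := by ring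
  rw [h2]
  exact Ideal.neg_mem_iff _ |>.2 (Ideal.mem_sup_right h1)

theorem sub_dhm (h : Chg S a b) (P : MvPolynomial (Fin (n + 1)) ℂ) {τ : ℂ} (hτ : τ ≠ 0)
    (y : MvPolynomial (Option (Fin n)) ℂ) :
    y - dhm (lsub a (phiB P b τ y)) ∈ Ideal.span (Set.range (sysB (lsub a P) S τ)) := by
  set J := Ideal.span (Set.range (sysB (lsub a P) S τ)) with hJ
  have hC : ∀ c : ℂ, dhm (C c : MvPolynomial (Option (Fin n)) ℂ) = C c := fun c => (dhm (n := n)).commutes c
  have h1 : (Ideal.Quotient.mkₐ ℂ J).comp ((dhm.comp (lsub a)).comp (phiB P b τ)) =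
      Ideal.Quotient.mkₐ ℂ J := by
    apply algHom_ext
    intro o
    rw [AlgHom.comp_apply, AlgHom.comp_apply, AlgHom.comp_apply]
    show Ideal.Quotient.mk J (dhm (lsub a (phiB P b τ (X o)))) = Ideal.Quotient.mk J (X o)
    have h2 : phiB P b τ (X o) = o.elim (C τ⁻¹ * evf P (b none)) fun j => lsub b (X (some j)) := by
      unfold phiB; rw [aeval_X]
    rw [h2]
    cases o with
    | some j =>
      show Ideal.Quotient.mk J (dhm (lsub a (lsub b (X (some j))))) = _
      rw [lsub_back h, dhm_some]
    | none =>
      show Ideal.Quotient.mk J (dhm (lsub a (C τ⁻¹ * evf P (b none)))) = _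
      rw [Ideal.Quotient.eq]
      obtain ⟨G, hG⟩ : ∃ G : Fin (n + 1) → MvPolynomial (Option (Fin n)) ℂ,
          G = fun j => dhm (lsub a (pderiv j P)) := ⟨_, rfl⟩
      obtain ⟨H, hH⟩ : ∃ H : Fin (n + 1) → MvPolynomial (Option (Fin n)) ℂ,
          H = fun j => dhm (lsub a (X j)) := ⟨_, rfl⟩
      have h3a : dhm (lsub a (C τ⁻¹ * evf P (b none))) = C τ⁻¹ * ∑ j, C (b none j) * G j := by
        unfold evf
        rw [map_mul, map_mul, lsub_C, hC, map_sum, map_sum, hG]
        congr 1
        refine Finset.sum_congr rfl fun j _ => ?_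
        rw [map_mul, map_mul, lsub_C, hC]
      have h4 : ∑ j, C (b none j) * H j = 1 := by
        have h4' : dhm (lsub a (linForm (b none))) = 1 := by rw [lsub_lin h, dhm_none]
        unfold linForm at h4'
        rw [map_sum, map_sum] at h4'
        rw [← h4', hH]
        refine Finset.sum_congr rfl fun j _ => ?_
        rw [map_mul, map_mul, lsub_C, hC]
      have h6 : (C τ⁻¹ * C τ : MvPolynomial (Option (Fin n)) ℂ) = 1 := by
        rw [← map_mul, inv_mul_cancel₀ hτ, map_one]
      have h5 : ∀ j, G j - C τ * X none * H j ∈ J := by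
        intro j
        rw [hG, hH]
        exact sysB_mem h P τ j
      have h3 : C τ⁻¹ * ∑ j, C (b none j) * G j - X none =
          C τ⁻¹ * ∑ j, C (b none j) * (G j - C τ * X none * H j) := by
        have h9 : ∑ j, C (b none j) * (G j - C τ * X none * H j) =
            ∑ j, C (b none j) * G j - C τ * X none * ∑ j, C (b none j) * H j := by
          rw [Finset.mul_sum, ← Finset.sum_sub_distrib]
          exact Finset.sum_congr rfl fun j _ => by ring
        rw [h9, h4, mul_one, mul_sub, ← mul_assoc, h6, one_mul]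
      rw [h3a, h3]
      exact Ideal.mul_mem_left _ _ (Ideal.sum_mem _ fun j _ => Ideal.mul_mem_left _ _ (h5 j))
  have h7 := DFunLike.congr_fun h1 y
  have h8 : Ideal.Quotient.mk J (dhm (lsub a (phiB P b τ y))) = Ideal.Quotient.mk J y := h7
  exact Ideal.Quotient.eq.1 h8.symm

/-- the point of the chart of an eigenpoint with eigenvalue `0` -/
noncomputable def ptB (b : Option (Fin n) → Fin (n + 1) → ℂ) (v : Fin (n + 1) → ℂ) : Option (Fin n) → ℂ :=
  fun o => o.elim 0 fun j => ∑ i, b (some j) i * v i

theorem ptB_one (v : Fin (n + 1) → ℂ) (hv : ∑ i, b none i * v i = 1) :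
    (fun o : Option (Fin n) => o.elim (1 : ℂ) fun j => ptB b v (some j)) = fun k => ∑ j, b k j * v j := by
  funext o
  cases o with
  | none => exact hv.symm
  | some j => rfl

theorem mulAt_sysB (h : Chg S a b) (P : MvPolynomial (Fin (n + 1)) ℂ) {τ : ℂ} (hτ : τ ≠ 0)
    (v : Fin (n + 1) → ℂ) (hv : ∑ i, b none i * v i = 1) (hP : ∀ i, eval v (pderiv i P) = 0) :
    mulAt (chartIdeal P (b none)) v = mulAt (Ideal.span (Set.range (sysB (lsub a P) S τ))) (ptB b v) := by
  refine mulAt_congr _ _ _ _ (dhm.comp (lsub a)) ?_ ?_ ?_ ?_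
  · intro y
    exact ⟨phiB P b τ y, sub_dhm h P hτ y⟩
  · intro x
    rw [AlgHom.comp_apply]
    constructor
    · intro hx
      have h1 : ∀ f ∈ Ideal.span (Set.range (sysB (lsub a P) S τ)),
          phiB P b τ f ∈ chartIdeal P (b none) := by
        intro f hf
        induction hf using Submodule.span_induction with
        | mem x hx =>
          obtain ⟨k, rfl⟩ := hx
          exact phiB_sysB h P hτ k
        | zero => rw [map_zero]; exact Ideal.zero_mem _
        | add x y _ _ hx hy => rw [map_add]; exact Ideal.add_mem _ hx hy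
        | smul c x _ hx => rw [smul_eq_mul, map_mul]; exact Ideal.mul_mem_left _ _ hx
      have h2 := Ideal.add_mem _ (h1 _ hx) (sub_phiB h P τ x)
      have h3 : phiB P b τ (dhm (lsub a x)) + (x - phiB P b τ (dhm (lsub a x))) = x := by ring
      rwa [h3] at h2
    · intro hx
      obtain ⟨y, hy, z, hz, rfl⟩ := Submodule.mem_sup.mp hx
      clear hx
      rw [map_add, map_add]
      refine Ideal.add_mem _ ?_ ?_
      · unfold eigIdeal at hy
        induction hy using Submodule.span_induction with
        | mem g hg =>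
          obtain ⟨i, j, rfl⟩ := hg
          have h1 := sysB_mem h P τ i
          have h2 := sysB_mem h P τ j
          rw [map_sub, map_mul, map_mul, map_sub, map_mul, map_mul]
          have h3 : dhm (lsub a (X i)) * dhm (lsub a (pderiv j P)) -
              dhm (lsub a (X j)) * dhm (lsub a (pderiv i P)) =
              dhm (lsub a (X i)) * (dhm (lsub a (pderiv j P)) - C τ * X none * dhm (lsub a (X j))) -
              dhm (lsub a (X j)) * (dhm (lsub a (pderiv i P)) - C τ * X none * dhm (lsub a (X i))) := by
            ring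
          rw [h3]
          exact Ideal.sub_mem _ (Ideal.mul_mem_left _ _ h2) (Ideal.mul_mem_left _ _ h1)
        | zero => simp
        | add u v _ _ hu hv =>
          rw [map_add, map_add]
          exact Ideal.add_mem _ hu hv
        | smul c u _ hu =>
          rw [smul_eq_mul, map_mul, map_mul]
          exact Ideal.mul_mem_left _ _ hu
      · obtain ⟨c, rfl⟩ := Ideal.mem_span_singleton'.mp hz
        rw [map_mul, map_mul, map_sub, map_one, lsub_lin h, map_sub, map_one, dhm_none, sub_self,
          mul_zero]
        exact Ideal.zero_mem _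
  · intro x
    rw [AlgHom.comp_apply, eval_dhm, ptB_one v hv, eval_lsub, ab_val h]
  · rw [mem_span_eval]
    intro k
    unfold sysB
    rw [map_sub, map_mul, map_mul, eval_X]
    have h1 : ptB b v none = 0 := rfl
    rw [h1, mul_zero, zero_mul, sub_zero, eval_dhm, ptB_one v hv, pderiv_lsub, map_sum]
    refine Finset.sum_eq_zero fun i _ => ?_
    rw [map_mul, eval_lsub, ab_val h, hP i, mul_zero]

theorem sum_lin {N : ℕ} (β v : Fin N → ℂ) : eval v (linForm β) = ∑ i, β i * v i := by
  unfold linForm
  rw [map_sum]
  exact Finset.sum_congr rfl fun i _ => by rw [map_mul, eval_C, eval_X]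

/-- gradients at corresponding points -/
theorem grad_val (h : Chg S a b) (P : MvPolynomial (Fin (n + 1)) ℂ) (w : Option (Fin n) → ℂ)
    (i : Fin (n + 1)) : eval (fun i => ∑ l, a i l * w l) (pderiv i P) =
      ∑ k, b k i * eval w (pderiv k (lsub a P)) := by
  rw [← eval_lsub, lsub_pd h, map_sum]
  exact Finset.sum_congr rfl fun k _ => by rw [map_mul, eval_C]

theorem coord_val (h : Chg S a b) (w : Option (Fin n) → ℂ) (i : Fin (n + 1)) :
    ∑ l, a i l * w l = ∑ k, b k i * eval w (sl S k) := by
  have h1 : eval w (lsub a (X i)) = ∑ l, a i l * w l := by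
    rw [eval_lsub, eval_X]
  rw [← h1, lsub_Xi h, map_sum]
  exact Finset.sum_congr rfl fun k _ => by rw [map_mul, eval_C]

end Transf

/-- **The special sheet lemma.** -/
theorem sheet {N q : ℕ} (hq : 2 ≤ q) {P : MvPolynomial (Fin N) ℂ} (hP : P.IsHomogeneous (q + 1))
    (β : Fin N → ℂ) (hβ : β ≠ 0) {τ : ℂ} (hτ : τ ≠ 0)
    (hns : ∀ v : Fin N → ℂ, v ≠ 0 → ∑ i, β i * v i = 0 →
      ∀ μ : ℂ, ¬ ∀ i, eval v (pderiv i P) = μ * β i)
    (S : Finset (Fin N → ℂ))
    (hS : ∀ v, v ∈ S ↔ eval v (linForm β) = 1 ∧ ∀ i, eval v (pderiv i P) = 0)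
    (hfin : {v | eval v (linForm β) = 1 ∧ IsEigenvector P v}.Finite) :
    mulAt (Ideal.span (Set.range fun i => pderiv i P - C τ * linForm β ^ q * X i)) 0 =
      q ^ N + ∑ v ∈ S, mulAt (chartIdeal P β) v := by
  classical
  obtain ⟨n, rfl⟩ : ∃ n, N = n + 1 := by
    cases N with
    | zero => exact absurd (Subsingleton.elim β 0) hβ
    | succ n => exact ⟨n, rfl⟩
  obtain ⟨M, a, b, h, hb⟩ := exists_coord β hβ
  subst hb
  have hP' : (lsub a P).IsHomogeneous (q + 1) := lsub_isHomogeneous a hP
  have hbn : ∀ w : Option (Fin n) → ℂ, ∑ i, b none i * ∑ l, a i l * w l = w none :=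
    fun w => congrFun (ba_val h w) none
  have h1 := mulAt_sysO h hq hP τ
  have h1' : mulAt (Ideal.span (Set.range fun i => pderiv i P - C τ * linForm (b none) ^ q * X i)) 0 =
      mulAt (Ideal.span (Set.range (sysA (lsub a P) M q τ))) 0 := h1
  rw [h1']
  -- zeros of the second system
  have hzero : ∀ y : Option (Fin n) → ℂ, (∀ k, eval y (sysB (lsub a P) M τ k) = 0) → ∀ i,
      eval (fun i => ∑ l, a i l * (fun o : Option (Fin n) => o.elim (1 : ℂ) fun j => y (some j)) l)
        (pderiv i P) = τ * y none *
        ∑ l, a i l * (fun o : Option (Fin n) => o.elim (1 : ℂ) fun j => y (some j)) l := by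
    intro y hy i
    rw [grad_val h, coord_val h, Finset.mul_sum]
    refine Finset.sum_congr rfl fun k _ => ?_
    have h2 := hy k
    unfold sysB at h2
    rw [map_sub, map_mul, map_mul, eval_C, eval_X, eval_dhm, eval_dhm, sub_eq_zero] at h2
    rw [h2]
    ring
  have hptB : ∀ y : Option (Fin n) → ℂ, y none = 0 →
      ptB b (fun i => ∑ l, a i l * (fun o : Option (Fin n) => o.elim (1 : ℂ) fun j => y (some j)) l) = y := by
    intro y hy
    funext o
    cases o with
    | none => exact hy.symm
    | some j =>
      exact congrFun (ba_val h (fun o : Option (Fin n) => o.elim (1 : ℂ) fun j => y (some j))) (some j)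
  have hcore := core hq hP' M τ (by
      intro z hz
      by_contra hz0
      set w : Option (Fin n) → ℂ := fun o => o.elim 0 z with hw
      have h3 : (fun i => ∑ l, a i l * w l) ≠ 0 := by
        intro h4
        apply hz0
        funext j
        have h5 := congrFun (ba_val h w) (some j)
        have h6 : ∀ i, ∑ l, a i l * w l = 0 := fun i => congrFun h4 i
        simp only [h6, mul_zero, Finset.sum_const_zero] at h5
        exact h5.symm
      refine hns _ h3 (by rw [hbn]; rfl) (eval w (pderiv none (lsub a P))) fun i => ?_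
      rw [grad_val h, Fintype.sum_option, Finset.sum_eq_zero, add_zero, mul_comm]
      intro j _
      have h7 := hz j
      rw [eval_sb'] at h7
      rw [h7, mul_zero])
    (by
      refine Set.Finite.of_finite_image (f := fun y : Option (Fin n) → ℂ =>
        fun i => ∑ l, a i l * (fun o : Option (Fin n) => o.elim (1 : ℂ) fun j => y (some j)) l)
        (hfin.subset ?_) ?_
      · rintro _ ⟨y, hy, rfl⟩
        have h2 := hzero y hy
        have h3 : eval (fun i => ∑ l, a i l * (fun o : Option (Fin n) => o.elim (1 : ℂ) fun j => y (some j)) l)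
            (linForm (b none)) = 1 := by
          rw [sum_lin, hbn]
          rfl
        refine ⟨h3, ?_, ?_⟩
        · intro h4
          rw [sum_lin] at h3
          have h5 : ∀ i, ∑ l, a i l * (fun o : Option (Fin n) => o.elim (1 : ℂ) fun j => y (some j)) l = 0 :=
            fun i => congrFun h4 i
          simp only [h5, mul_zero, Finset.sum_const_zero] at h3
          exact zero_ne_one h3
        · intro i j
          rw [h2, h2]
          ring
      · intro y hy y' hy' hyy
        have h4 : (fun o : Option (Fin n) => o.elim (1 : ℂ) fun j => y (some j)) =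
            fun o : Option (Fin n) => o.elim (1 : ℂ) fun j => y' (some j) := by
          rw [← ba_val h (fun o : Option (Fin n) => o.elim (1 : ℂ) fun j => y (some j)),
            ← ba_val h (fun o : Option (Fin n) => o.elim (1 : ℂ) fun j => y' (some j))]
          funext k
          refine Finset.sum_congr rfl fun i _ => ?_
          exact congrArg (fun t => b k i * t) (congrFun hyy i)
        funext o
        cases o with
        | some j => exact congrFun h4 (some j)
        | none =>
          have h5 := hzero y hy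
          have h6 := hzero y' hy'
          rw [← h4] at h6
          have h7 : ∑ i, b none i * (τ * y none *
              ∑ l, a i l * (fun o : Option (Fin n) => o.elim (1 : ℂ) fun j => y (some j)) l) =
              ∑ i, b none i * (τ * y' none *
              ∑ l, a i l * (fun o : Option (Fin n) => o.elim (1 : ℂ) fun j => y (some j)) l) :=
            Finset.sum_congr rfl fun i _ => by rw [← h5, ← h6]
          have h8 : ∀ c : ℂ, ∑ i, b none i * (c *
              ∑ l, a i l * (fun o : Option (Fin n) => o.elim (1 : ℂ) fun j => y (some j)) l) = c := by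
            intro c
            have h9 := hbn (fun o : Option (Fin n) => o.elim (1 : ℂ) fun j => y (some j))
            calc _ = c * ∑ i, b none i *
                ∑ l, a i l * (fun o : Option (Fin n) => o.elim (1 : ℂ) fun j => y (some j)) l := by
                  rw [Finset.mul_sum]
                  exact Finset.sum_congr rfl fun i _ => by ring
              _ = c := by rw [h9]; exact mul_one c
          rw [h8, h8] at h7
          exact mul_left_cancel₀ hτ h7)
    (S.image (ptB b)) (by
      intro y
      rw [Finset.mem_image]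
      constructor
      · rintro ⟨v, hv, rfl⟩
        obtain ⟨h2, h3⟩ := (hS v).1 hv
        rw [sum_lin] at h2
        refine ⟨fun k => ?_, rfl⟩
        unfold sysB
        rw [map_sub, map_mul, map_mul, eval_X]
        have h4 : ptB b v none = 0 := rfl
        rw [h4, mul_zero, zero_mul, sub_zero, eval_dhm, ptB_one v h2, pderiv_lsub, map_sum]
        refine Finset.sum_eq_zero fun i _ => ?_
        rw [map_mul, eval_lsub, ab_val h, h3 i, mul_zero]
      · rintro ⟨hy, hy0⟩
        refine ⟨_, (hS _).2 ⟨?_, ?_⟩, hptB y hy0⟩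
        · rw [sum_lin, hbn]
          rfl
        · intro i
          rw [hzero y hy, hy0, mul_zero, zero_mul])
  rw [hcore, Finset.sum_image]
  · congr 1
    refine Finset.sum_congr rfl fun v hv => ?_
    obtain ⟨h2, h3⟩ := (hS v).1 hv
    rw [sum_lin] at h2
    exact (mulAt_sysB h P hτ v h2 h3).symm
  · intro v hv v' hv' hvv
    have h2 := ((hS v).1 hv).1
    have h2' := ((hS v').1 hv').1
    rw [sum_lin] at h2 h2'
    rw [← ab_val h v, ← ab_val h v']
    funext i
    refine Finset.sum_congr rfl fun k _ => ?_
    congr 1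
    cases k with
    | none => rw [h2, h2']
    | some j => exact congrFun hvv (some j)

end EY
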