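import Pool.Agent.helper5.EY.Loc
import Pool.Agent.helper40.EY.Glob
import Pool.Agent.helper40.EY.Chart
import Pool.Agent.helper62.NP.Sb

set_option autoImplicit false
set_option linter.unusedSectionVars false

/-!
# EY-SheetA: several points over `b = 0`

`ℂ[x]/I = A/(g)`, `A` finite free over `ℂ[b]`: the order at `0` of the norm of `g` is the sum of the local
multiplicities at the zeros of `I` with `b = 0`; the norm is not zero if `I` has finitely many zeros.
-/

namespace EY

open MvPolynomial Pool.Agent.helper62.NP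

section Poly

variable {σ : Type*}

/-- some power of `b` is in the local ideal -/
theorem exists_mul_pow_mem (I : Ideal (MvPolynomial σ ℂ)) (p : σ → ℂ) (b : MvPolynomial σ ℂ)
    (hb : eval p b = 0) (D : Polynomial ℂ) (hD0 : D ≠ 0) (hD : Polynomial.aeval b D ∈ I) (n : ℕ)
    (hn : D.rootMultiplicity 0 ≤ n) : ∃ s, s ∉ pt p ∧ s * b ^ n ∈ I := by
  obtain ⟨ψ, hψ, hψ'⟩ := Polynomial.exists_eq_pow_rootMultiplicity_mul_and_not_dvd D hD0 0
  have hX : (Polynomial.X : Polynomial ℂ) - Polynomial.C 0 = Polynomial.X := by simp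
  rw [hX] at hψ hψ'
  refine ⟨Polynomial.aeval b ψ, ?_, ?_⟩
  · intro hmem
    have h1 : eval p (Polynomial.aeval b ψ) = 0 := mem_pt.mp hmem
    have h2 : eval p (Polynomial.aeval b ψ) = ψ.eval 0 := by
      have h3 := Polynomial.hom_eval₂ ψ (algebraMap ℂ (MvPolynomial σ ℂ)) (eval p) b
      rw [← Polynomial.aeval_def, hb] at h3
      rw [h3]
      have h4 : (eval p).comp (algebraMap ℂ (MvPolynomial σ ℂ)) = RingHom.id ℂ := by
        ext z
        · simp
      rw [h4]
      rfl
    rw [h2] at h1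
    exact hψ' (Polynomial.X_dvd_iff.mpr (by rw [Polynomial.coeff_zero_eq_eval_zero, h1]))
  · have h5 : Polynomial.aeval b D = b ^ D.rootMultiplicity 0 * Polynomial.aeval b ψ := by
      conv_lhs => rw [hψ]
      rw [map_mul, map_pow, Polynomial.aeval_X]
    have h6 : Polynomial.aeval b ψ * b ^ n =
        b ^ (n - D.rootMultiplicity 0) * Polynomial.aeval b D := by
      rw [h5]
      have h7 : b ^ n = b ^ (n - D.rootMultiplicity 0) * b ^ D.rootMultiplicity 0 := by
        rw [← pow_add, Nat.sub_add_cancel hn]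
      rw [h7]
      ring
    rw [h6]
    exact I.mul_mem_left _ hD

theorem mulAt_sup_pow (I : Ideal (MvPolynomial σ ℂ)) (p : σ → ℂ) (b : MvPolynomial σ ℂ)
    (hb : eval p b = 0) (D : Polynomial ℂ) (hD0 : D ≠ 0) (hD : Polynomial.aeval b D ∈ I) (n : ℕ)
    (hn : D.rootMultiplicity 0 ≤ n) : mulAt (I ⊔ Ideal.span {b ^ n}) p = mulAt I p := by
  have h : (I ⊔ Ideal.span {b ^ n}).map (algebraMap (MvPolynomial σ ℂ) (Localization.AtPrime (pt p))) =
      I.map (algebraMap (MvPolynomial σ ℂ) (Localization.AtPrime (pt p))) := by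
    apply le_antisymm
    · rw [Ideal.map_sup, sup_le_iff]
      refine ⟨le_rfl, ?_⟩
      rw [Ideal.map_span, Set.image_singleton, Ideal.span_singleton_le_iff_mem,
        IsLocalization.algebraMap_mem_map_algebraMap_iff (pt p).primeCompl]
      obtain ⟨s, hs, hs'⟩ := exists_mul_pow_mem I p b hb D hD0 hD n hn
      exact ⟨s, hs, hs'⟩
    · exact Ideal.map_mono le_sup_left
  unfold mulAt
  rw [h]

variable {A : Type*} [CommRing A] [Algebra (Polynomial ℂ) A] [Algebra ℂ A]
  [IsScalarTower ℂ (Polynomial ℂ) A] [Module.Free (Polynomial ℂ) A] [Module.Finite (Polynomial ℂ) A]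

/-- L2 for several points -/
theorem sum_mulAt_eq_rootMultiplicity [Finite σ] (π : MvPolynomial σ ℂ →ₐ[ℂ] A)
    (hπ : Function.Surjective π) (g : A) (hg : Algebra.norm (Polynomial ℂ) g ≠ 0)
    (b : MvPolynomial σ ℂ) (hπb : π b = algebraMap (Polynomial ℂ) A Polynomial.X)
    (Z : Finset (σ → ℂ))
    (hZ : ∀ q, q ∈ Z ↔ (∀ f, π f ∈ Ideal.span {g} → eval q f = 0) ∧ eval q b = 0) :
    ∑ p ∈ Z, mulAt (Ideal.comap π (Ideal.span {g})) p =
      (Algebra.norm (Polynomial ℂ) g).rootMultiplicity 0 := by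
  set D := Algebra.norm (Polynomial ℂ) g with hDdef
  set n := D.rootMultiplicity 0 + 1 with hn
  have hπD : π (Polynomial.aeval b D) = algebraMap (Polynomial ℂ) A D := by
    rw [← Polynomial.aeval_algHom_apply, hπb]
    have h1 : ((IsScalarTower.toAlgHom ℂ (Polynomial ℂ) A) : Polynomial ℂ →ₐ[ℂ] A) D =
        Polynomial.aeval (algebraMap (Polynomial ℂ) A Polynomial.X) D := by
      have h2 := Polynomial.aeval_algHom_apply (IsScalarTower.toAlgHom ℂ (Polynomial ℂ) A)
        (Polynomial.X : Polynomial ℂ) D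
      rw [Polynomial.aeval_X_left_apply] at h2
      exact h2.symm
    exact h1.symm
  have hDmem : Polynomial.aeval b D ∈ Ideal.comap π (Ideal.span {g}) := by
    rw [Ideal.mem_comap, hπD, Ideal.mem_span_singleton]
    exact norm_dvd g
  have hDn : (Algebra.norm (Polynomial ℂ) g).rootMultiplicity 0 ≤ n := by
    rw [hn, hDdef]
    exact Nat.le_succ _
  obtain ⟨-, h2⟩ := finrank_quot_span_pow (F := ℂ) g hg n hDn
  set J := Ideal.span {g, algebraMap (Polynomial ℂ) A (Polynomial.X ^ n)} with hJ
  set ρ : MvPolynomial σ ℂ →ₐ[ℂ] A ⧸ J := (Ideal.Quotient.mkₐ ℂ J).comp π with hρ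
  have hρs : Function.Surjective ρ := (Ideal.Quotient.mkₐ_surjective ℂ J).comp hπ
  have hker : RingHom.ker ρ = Ideal.comap π (Ideal.span {g}) ⊔ Ideal.span {b ^ n} := by
    ext x
    rw [RingHom.mem_ker]
    have h3 : ρ x = Ideal.Quotient.mk J (π x) := rfl
    rw [h3, Ideal.Quotient.eq_zero_iff_mem, hJ, Ideal.mem_span_pair]
    constructor
    · rintro ⟨y, z, hyz⟩
      obtain ⟨z', rfl⟩ := hπ z
      have h4 : x = (x - z' * b ^ n) + z' * b ^ n := by ring
      rw [h4]
      refine Ideal.add_mem _ (Ideal.mem_sup_left ?_)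
        (Ideal.mem_sup_right (Ideal.mul_mem_left _ _ (Ideal.subset_span rfl)))
      rw [Ideal.mem_comap, map_sub, map_mul, map_pow, hπb, ← hyz, Ideal.mem_span_singleton]
      refine ⟨y, ?_⟩
      rw [map_pow]
      ring
    · intro hx
      obtain ⟨i, hi, t, ht, rfl⟩ := Submodule.mem_sup.mp hx
      obtain ⟨c, rfl⟩ := Ideal.mem_span_singleton'.mp ht
      rw [Ideal.mem_comap, Ideal.mem_span_singleton'] at hi
      obtain ⟨y, hy⟩ := hi
      refine ⟨y, π c, ?_⟩
      rw [map_add, map_mul, map_pow, map_pow, hπb, hy]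
  have e := (Ideal.quotientEquivAlgOfEq ℂ hker.symm).trans
    (Ideal.quotientKerAlgEquivOfSurjective hρs)
  have h5 := e.toLinearEquiv.finrank_eq
  rw [h2] at h5
  rw [← h5, (finrank_eq_sum_mulAt (Ideal.comap π (Ideal.span {g}) ⊔ Ideal.span {b ^ n}) Z ?_).2]
  · refine Finset.sum_congr rfl fun p hp => ?_
    exact (mulAt_sup_pow _ p b ((hZ p).1 hp).2 D hg hDmem n hDn).symm
  · intro q
    rw [hZ]
    constructor
    · rintro ⟨h6, h7⟩ f hf
      obtain ⟨i, hi, t, ht, rfl⟩ := Submodule.mem_sup.mp hf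
      obtain ⟨c, rfl⟩ := Ideal.mem_span_singleton'.mp ht
      rw [map_add, map_mul, map_pow, h7, zero_pow (by omega), mul_zero, add_zero]
      exact h6 i hi
    · intro h6
      refine ⟨fun f hf => h6 f (Ideal.mem_sup_left hf), ?_⟩
      have h7 := h6 (b ^ n) (Ideal.mem_sup_right (Ideal.subset_span rfl))
      rw [map_pow] at h7
      exact eq_zero_of_pow_eq_zero h7

end Poly

section System

variable {n : ℕ}

/-- the projection to `ℂ[b][z]/(F_z)` -/
noncomputable def prj (F : Option (Fin n) → MvPolynomial (Option (Fin n)) ℂ) :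
    MvPolynomial (Option (Fin n)) ℂ →ₐ[ℂ] Md (Polynomial ℂ) (fun i => sb Polynomial.X (F (some i))) :=
  (Ideal.Quotient.mkₐ ℂ _).comp (sb Polynomial.X)

theorem sb_X_eq : (sb (Polynomial.X : Polynomial ℂ) : MvPolynomial (Option (Fin n)) ℂ →ₐ[ℂ]
      MvPolynomial (Fin n) (Polynomial ℂ)) =
    (optionEquivRight ℂ (Fin n) : MvPolynomial (Option (Fin n)) ℂ →ₐ[ℂ]
      MvPolynomial (Fin n) (Polynomial ℂ)) := by
  apply algHom_ext
  intro o
  cases o with
  | none => rw [sb_none]; simp
  | some i => rw [sb_some]; simp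

theorem sb_X_surj : Function.Surjective
    (sb Polynomial.X : MvPolynomial (Option (Fin n)) ℂ →ₐ[ℂ] MvPolynomial (Fin n) (Polynomial ℂ)) := by
  rw [sb_X_eq]
  exact (optionEquivRight ℂ (Fin n)).surjective

theorem sb_X_inj : Function.Injective
    (sb Polynomial.X : MvPolynomial (Option (Fin n)) ℂ →ₐ[ℂ] MvPolynomial (Fin n) (Polynomial ℂ)) := by
  rw [sb_X_eq]
  exact (optionEquivRight ℂ (Fin n)).injective

theorem prj_surj (F : Option (Fin n) → MvPolynomial (Option (Fin n)) ℂ) :
    Function.Surjective (prj F) :=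
  (Ideal.Quotient.mkₐ_surjective ℂ _).comp sb_X_surj

theorem prj_b (F : Option (Fin n) → MvPolynomial (Option (Fin n)) ℂ) :
    prj F (X none) = algebraMap (Polynomial ℂ) _ Polynomial.X := by
  unfold prj
  rw [AlgHom.comp_apply, sb_none]
  rfl

theorem comap_prj (F : Option (Fin n) → MvPolynomial (Option (Fin n)) ℂ) :
    Ideal.comap (prj F) (Ideal.span {prj F (F none)}) = Ideal.span (Set.range F) := by
  apply le_antisymm
  · intro f hf
    rw [Ideal.mem_comap, Ideal.mem_span_singleton'] at hf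
    obtain ⟨a, ha⟩ := hf
    obtain ⟨a, rfl⟩ := prj_surj F a
    rw [← map_mul] at ha
    have h1 : prj F (f - a * F none) = 0 := by rw [map_sub, ha, sub_self]
    have h2 : sb (Polynomial.X : Polynomial ℂ) (f - a * F none) ∈
        Ideal.span (Set.range fun i => sb (Polynomial.X : Polynomial ℂ) (F (some i))) := by
      have h3 : Ideal.Quotient.mk (Ideal.span (Set.range fun i => sb Polynomial.X (F (some i))))
          (sb (Polynomial.X : Polynomial ℂ) (f - a * F none)) = 0 := h1
      rwa [Ideal.Quotient.eq_zero_iff_mem] at h3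
    rw [Ideal.mem_span_range_iff_exists_fun] at h2
    obtain ⟨c, hc⟩ := h2
    choose c' hc' using fun i => sb_X_surj (n := n) (c i)
    have h4 : f - a * F none = ∑ i, c' i * F (some i) := by
      apply sb_X_inj
      rw [← hc, map_sum]
      exact Finset.sum_congr rfl fun i _ => by rw [map_mul, hc']
    have h5 : f = ∑ i, c' i * F (some i) + a * F none := by rw [← h4]; ring
    rw [h5]
    exact Ideal.add_mem _ (Ideal.sum_mem _ fun i _ => Ideal.mul_mem_left _ _
      (Ideal.subset_span ⟨_, rfl⟩)) (Ideal.mul_mem_left _ _ (Ideal.subset_span ⟨_, rfl⟩))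
  · rw [Ideal.span_le]
    rintro _ ⟨o, rfl⟩
    rw [SetLike.mem_coe, Ideal.mem_comap]
    cases o with
    | none => exact Ideal.subset_span rfl
    | some i =>
      have h1 : prj F (F (some i)) = 0 := by
        show Ideal.Quotient.mk _ (sb (Polynomial.X : Polynomial ℂ) (F (some i))) = 0
        rw [Ideal.Quotient.eq_zero_iff_mem]
        exact Ideal.subset_span ⟨i, rfl⟩
      rw [h1]
      exact Ideal.zero_mem _

/-- an ideal different from the ring has a zero -/
theorem exists_zero_of_ne_top {σ : Type*} [Finite σ] (J : Ideal (MvPolynomial σ ℂ)) (hne : J ≠ ⊤) :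
    ∃ x : σ → ℂ, ∀ f ∈ J, eval x f = 0 := by
  obtain ⟨m, hm, hle⟩ := Ideal.exists_le_maximal _ hne
  obtain ⟨x, hx⟩ := isMaximal_iff_eq_vanishingIdeal_singleton.mp hm
  refine ⟨x, fun f hf => ?_⟩
  have h1 := hle hf
  rw [hx, mem_vanishingIdeal_singleton_iff] at h1
  simpa [aeval_eq_eval] using h1

theorem eval_sb' (x : ℂ) (y : Fin n → ℂ) (F : MvPolynomial (Option (Fin n)) ℂ) :
    eval y (sb x F) = eval (fun o : Option (Fin n) => o.elim x y) F := by
  have h : (aeval y : MvPolynomial (Fin n) ℂ →ₐ[ℂ] ℂ).comp (sb x) =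
      aeval (fun o : Option (Fin n) => o.elim x y) := by
    apply algHom_ext
    intro o
    cases o with
    | none =>
      rw [AlgHom.comp_apply, sb_none]
      simp
    | some i =>
      rw [AlgHom.comp_apply, sb_some]
      simp
  have h1 := DFunLike.congr_fun h F
  rw [AlgHom.comp_apply] at h1
  simpa [aeval_eq_eval] using h1

/-- the norm is not zero if there are finitely many zeros -/
theorem norm_ne_zero {g : Fin n → MvPolynomial (Fin n) ℂ} {d : Fin n → ℕ} (h : CI g d)
    (F : Option (Fin n) → MvPolynomial (Option (Fin n)) ℂ)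
    (hT : Top g d (fun i => sb (Polynomial.X : Polynomial ℂ) (F (some i))))
    (hfin : {y : Option (Fin n) → ℂ | ∀ o, eval y (F o) = 0}.Finite) :
    Nm (Polynomial ℂ) (fun i => sb Polynomial.X (F (some i))) (sb Polynomial.X (F none)) ≠ 0 := by
  intro h0
  have key : ∀ c : ℂ, ∃ ζ : Fin n → ℂ, ∀ o, eval (fun o : Option (Fin n) => o.elim c ζ) (F o) = 0 := by
    intro c
    have h1 := Nm_map h hT (Polynomial.aeval c : Polynomial ℂ →ₐ[ℂ] ℂ) (sb Polynomial.X (F none))
    rw [h0, map_zero, sb_map, Polynomial.aeval_X] at h1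
    have h2 : (fun i => map ((Polynomial.aeval c : Polynomial ℂ →ₐ[ℂ] ℂ) : Polynomial ℂ →+* ℂ)
        (sb (Polynomial.X : Polynomial ℂ) (F (some i)))) = fun i => sb c (F (some i)) := by
      funext i
      rw [sb_map, Polynomial.aeval_X]
    rw [h2] at h1
    obtain ⟨ζ, hζ⟩ := exists_zero_of_ne_top (Ideal.span (Set.range fun i => sb c (F (some i))) ⊔
      Ideal.span {sb c (F none)}) (by
        intro htop
        have h3 : (1 : MvPolynomial (Fin n) ℂ) ∈ Ideal.span (Set.range fun i => sb c (F (some i))) ⊔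
          Ideal.span {sb c (F none)} := by rw [htop]; trivial
        obtain ⟨j, hj, t, ht, hjt⟩ := Submodule.mem_sup.mp h3
        obtain ⟨a, rfl⟩ := Ideal.mem_span_singleton'.mp ht
        have h4 : IsUnit (Ideal.Quotient.mk (Ideal.span (Set.range fun i => sb c (F (some i))))
            (sb c (F none))) := by
          refine IsUnit.of_mul_eq_one (Ideal.Quotient.mk _ a) ?_
          rw [← map_mul, ← map_one (Ideal.Quotient.mk _), ← hjt, map_add,
            Ideal.Quotient.eq_zero_iff_mem.mpr hj, zero_add, mul_comm]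
        have h5 := h4.map (Algebra.norm ℂ)
        have h6 : Algebra.norm ℂ (Ideal.Quotient.mk (Ideal.span (Set.range fun i =>
          sb c (F (some i)))) (sb c (F none))) = 0 := h1
        rw [h6] at h5
        exact not_isUnit_zero h5)
    refine ⟨ζ, fun o => ?_⟩
    rw [← eval_sb']
    cases o with
    | none => exact hζ _ (Ideal.mem_sup_right (Ideal.subset_span rfl))
    | some i => exact hζ _ (Ideal.mem_sup_left (Ideal.subset_span ⟨i, rfl⟩))
  choose ζ hζ using key
  have hinf : {y : Option (Fin n) → ℂ | ∀ o, eval y (F o) = 0}.Infinite :=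
    Set.infinite_of_injective_forall_mem (f := fun c : ℂ => fun o : Option (Fin n) => o.elim c (ζ c))
      (fun c c' hcc => by
        have := congrFun hcc none
        exact this) (fun c => hζ c)
  exact hinf hfin

/-- dilation `z_i ↦ b z_i` -/
noncomputable def dl : MvPolynomial (Fin n) (Polynomial ℂ) →ₐ[Polynomial ℂ]
    MvPolynomial (Fin n) (Polynomial ℂ) := aeval fun i => X i * C Polynomial.X

theorem dl_sb {F : MvPolynomial (Option (Fin n)) ℂ} {m : ℕ} (hF : F.IsHomogeneous m) :
    dl (sb (Polynomial.X : Polynomial ℂ) F) = C (Polynomial.X ^ m) * sb (1 : Polynomial ℂ) F := by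
  have h1 := aeval_scale hF (fun o : Option (Fin n) =>
    (o.elim (C 1) X : MvPolynomial (Fin n) (Polynomial ℂ))) (C Polynomial.X)
  have h2 : ((dl (n := n)).restrictScalars ℂ).comp (sb (Polynomial.X : Polynomial ℂ)) =
      aeval (fun o : Option (Fin n) =>
        (o.elim (C 1) X : MvPolynomial (Fin n) (Polynomial ℂ)) * C Polynomial.X) := by
    apply algHom_ext
    intro o
    rw [AlgHom.comp_apply, aeval_X]
    cases o with
    | none =>
      rw [sb_none]
      show dl (C Polynomial.X) = C 1 * C Polynomial.X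
      rw [map_one, one_mul]
      exact (dl (n := n)).commutes _
    | some i =>
      rw [sb_some]
      show dl (X i) = X i * C Polynomial.X
      unfold dl
      rw [aeval_X]
  have h3 := DFunLike.congr_fun h2 F
  rw [h1] at h3
  have h4 : dl (sb (Polynomial.X : Polynomial ℂ) F) =
      sb (1 : Polynomial ℂ) F * C Polynomial.X ^ m := h3
  rw [h4, map_pow, mul_comm]

theorem dl_map {e : MvPolynomial (Fin n) ℂ} {m : ℕ} (he : e.IsHomogeneous m) :
    dl (map (algebraMap ℂ (Polynomial ℂ)) e) =
      C (Polynomial.X ^ m) * map (algebraMap ℂ (Polynomial ℂ)) e := by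
  have h1 := aeval_scale he (fun i : Fin n => (X i : MvPolynomial (Fin n) (Polynomial ℂ)))
    (C Polynomial.X)
  have h2 : ((dl (n := n)).restrictScalars ℂ).comp (mapAlgHom (Algebra.ofId ℂ (Polynomial ℂ))) =
      aeval (fun i : Fin n => (X i : MvPolynomial (Fin n) (Polynomial ℂ)) * C Polynomial.X) := by
    apply algHom_ext
    intro i
    rw [AlgHom.comp_apply, aeval_X]
    show dl (map _ (X i)) = _
    rw [map_X]
    unfold dl
    rw [aeval_X]
  have h5 : (mapAlgHom (Algebra.ofId ℂ (Polynomial ℂ)) : MvPolynomial (Fin n) ℂ →ₐ[ℂ]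
      MvPolynomial (Fin n) (Polynomial ℂ)) =
      aeval (fun i : Fin n => (X i : MvPolynomial (Fin n) (Polynomial ℂ))) := by
    apply algHom_ext
    intro i
    rw [aeval_X]
    exact map_X _ _
  have h3 := DFunLike.congr_fun h2 e
  rw [h1, ← h5] at h3
  have h4 : dl (map (algebraMap ℂ (Polynomial ℂ)) e) =
      map (algebraMap ℂ (Polynomial ℂ)) e * C Polynomial.X ^ m := h3
  rw [h4, map_pow, mul_comm]

/-- comparison of the norms before and after the dilation -/
theorem Nm_dl {g : Fin n → MvPolynomial (Fin n) ℂ} {d : Fin n → ℕ} (h : CI g d) (q : ℕ)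
    {G1 G2 : Fin n → MvPolynomial (Fin n) (Polynomial ℂ)} (h1 : Top g d G1) (h2 : Top g d G2)
    (h12 : ∀ i, dl (G1 i) = C (Polynomial.X ^ q) * G2 i)
    {E1 E2 : MvPolynomial (Fin n) (Polynomial ℂ)} (hE : dl E1 = C (Polynomial.X ^ q) * E2) :
    Nm (Polynomial ℂ) G1 E1 = Polynomial.X ^ (q * ∏ i, d i) * Nm (Polynomial ℂ) G2 E2 := by
  classical
  obtain ⟨ι, _, e, de, he, hcard, hb⟩ := Pool.Agent.helper62.BZ.exists_basis g d h.pos h.hom h.zero
  obtain ⟨b1, hb1⟩ := hb (Polynomial ℂ) G1 h1
  obtain ⟨b2, hb2⟩ := hb (Polynomial ℂ) G2 h2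
  -- the homomorphism
  let φ : Md (Polynomial ℂ) G1 →ₐ[Polynomial ℂ] Md (Polynomial ℂ) G2 :=
    Ideal.Quotient.liftₐ (Ideal.span (Set.range G1))
      ((Ideal.Quotient.mkₐ (Polynomial ℂ) (Ideal.span (Set.range G2))).comp dl) (by
        intro f hf
        rw [AlgHom.comp_apply]
        show Ideal.Quotient.mk _ (dl f) = 0
        rw [Ideal.Quotient.eq_zero_iff_mem]
        induction hf using Submodule.span_induction with
        | mem x hx =>
          obtain ⟨i, rfl⟩ := hx
          rw [h12]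
          exact Ideal.mul_mem_left _ _ (Ideal.subset_span ⟨i, rfl⟩)
        | zero => rw [map_zero]; exact Ideal.zero_mem _
        | add x y _ _ hx hy => rw [map_add]; exact Ideal.add_mem _ hx hy
        | smul c x _ hx => rw [smul_eq_mul, map_mul]; exact Ideal.mul_mem_left _ _ hx)
  have hφ : ∀ f, φ (Ideal.Quotient.mk _ f) = Ideal.Quotient.mk _ (dl f) := fun f => rfl
  have hC : ∀ (r : Polynomial ℂ) (f : MvPolynomial (Fin n) (Polynomial ℂ)),
      (Ideal.Quotient.mk (Ideal.span (Set.range G2)) (C r * f)) =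
        r • (Ideal.Quotient.mk (Ideal.span (Set.range G2)) f) := by
    intro r f
    rw [← smul_eq_C_mul]
    rfl
  have hφb : ∀ j, φ (b1 j) = (Polynomial.X ^ de j : Polynomial ℂ) • b2 j := by
    intro j
    rw [hb1, hb2, hφ, dl_map (he j), hC]
  have key : ∀ a : Md (Polynomial ℂ) G1,
      Algebra.norm (Polynomial ℂ) a = Algebra.norm (Polynomial ℂ) (φ a) := by
    intro a
    have hM : Matrix.diagonal (fun i => (Polynomial.X ^ de i : Polynomial ℂ)) *
        Algebra.leftMulMatrix b1 a =
        Algebra.leftMulMatrix b2 (φ a) * Matrix.diagonal (fun i => (Polynomial.X ^ de i : Polynomial ℂ)) := by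
      ext1 i j
      rw [Matrix.diagonal_mul, Matrix.mul_diagonal]
      have h3 : a * b1 j = ∑ i, Algebra.leftMulMatrix b1 a i j • b1 i := by
        rw [← b1.sum_repr (a * b1 j)]
        apply Finset.sum_congr rfl
        intro i _
        rw [Algebra.leftMulMatrix_eq_repr_mul]
      have h4 := congrArg φ h3
      rw [map_mul, map_sum, hφb] at h4
      simp only [map_smul, hφb] at h4
      have h5 := congrArg (fun x => b2.repr x i) h4
      simp only [mul_smul_comm, map_smul, map_sum, Finsupp.smul_apply, Finsupp.coe_finsetSum,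
        Finset.sum_apply, Module.Basis.repr_self, Finsupp.single_apply, smul_eq_mul] at h5
      rw [Finset.sum_eq_single i (fun k _ hk => by rw [if_neg hk]; ring)
        (fun hi => absurd (Finset.mem_univ i) hi), if_pos rfl, mul_one] at h5
      rw [Algebra.leftMulMatrix_eq_repr_mul b2 (φ a)]
      rw [mul_comm]
      refine h5.symm.trans ?_
      ring
    have h6 := congrArg Matrix.det hM
    rw [Matrix.det_mul, Matrix.det_mul, mul_comm] at h6
    have h7 : (Matrix.diagonal (fun i => (Polynomial.X ^ de i : Polynomial ℂ))).det ≠ 0 := by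
      rw [Matrix.det_diagonal]
      exact Finset.prod_ne_zero_iff.2 fun i _ => pow_ne_zero _ Polynomial.X_ne_zero
    rw [Algebra.norm_eq_matrix_det b1, Algebra.norm_eq_matrix_det b2]
    exact mul_right_cancel₀ h7 h6
  rw [Nm, Nm, key, hφ, hE, map_mul]
  have h8 : Ideal.Quotient.mk (Ideal.span (Set.range G2)) (C (Polynomial.X ^ q)) =
      algebraMap (Polynomial ℂ) (Md (Polynomial ℂ) G2) (Polynomial.X ^ q) := rfl
  rw [h8, map_mul, Algebra.norm_algebraMap_of_basis b2, hcard, ← pow_mul]

end System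

end EY
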