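import Pool.Agent.helper2.EY.SheetA
import Pool.Agent.helper5.EY.Tr2

set_option autoImplicit false
set_option linter.unusedSectionVars false

/-!
# EY-SheetB: the special sheet lemma, core

`P` a form of degree `q + 1` in `N` variables, nonsingular on the hyperplane `b = 0`: the local length at `0` of
`∇P = τ b^q x` is `q^N + I(P)`, `I(P)` the sum of the multiplicities of the eigenscheme of `P` at the singular points of `P`.
-/

namespace EY

open MvPolynomial Pool.Agent.helper62.NP

section Core

variable {n : ℕ}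

/-- `b ↦ 1` in the form, the variable `b` stays free -/
noncomputable def dhm : MvPolynomial (Option (Fin n)) ℂ →ₐ[ℂ] MvPolynomial (Option (Fin n)) ℂ :=
  aeval fun o => o.elim 1 fun i => X (some i)

/-- the system `∂_k P = τ b^q (S y)_k` -/
noncomputable def sysA (P : MvPolynomial (Option (Fin n)) ℂ) (S : Matrix (Option (Fin n)) (Option (Fin n)) ℂ)
    (q : ℕ) (τ : ℂ) (k : Option (Fin n)) : MvPolynomial (Option (Fin n)) ℂ :=
  pderiv k P - C τ * X none ^ q * sl S k

/-- the system `∂_k P (1, ζ) = τ b (S (1, ζ))_k` -/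
noncomputable def sysB (P : MvPolynomial (Option (Fin n)) ℂ) (S : Matrix (Option (Fin n)) (Option (Fin n)) ℂ)
    (τ : ℂ) (k : Option (Fin n)) : MvPolynomial (Option (Fin n)) ℂ :=
  dhm (pderiv k P) - C τ * X none * dhm (sl S k)

theorem sb_dhm (F : MvPolynomial (Option (Fin n)) ℂ) :
    sb (Polynomial.X : Polynomial ℂ) (dhm F) = sb (1 : Polynomial ℂ) F := by
  have h : (sb (Polynomial.X : Polynomial ℂ)).comp (dhm (n := n)) = sb (1 : Polynomial ℂ) := by
    apply algHom_ext
    intro o
    rw [AlgHom.comp_apply]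
    unfold dhm
    rw [aeval_X]
    cases o with
    | none => rw [sb_none]; simp
    | some i => rw [sb_some]; exact sb_some _ _
  exact DFunLike.congr_fun h F

theorem sb_sysA (P : MvPolynomial (Option (Fin n)) ℂ) (S : Matrix (Option (Fin n)) (Option (Fin n)) ℂ)
    (q : ℕ) (τ : ℂ) (k : Option (Fin n)) : sb (Polynomial.X : Polynomial ℂ) (sysA P S q τ k) =
      sb Polynomial.X (pderiv k P) - C (Polynomial.C τ * Polynomial.X ^ q) * sb Polynomial.X (sl S k) := by
  unfold sysA
  rw [map_sub, map_mul, map_mul, map_pow, sb_none]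
  have h : sb (Polynomial.X : Polynomial ℂ) (C τ : MvPolynomial (Option (Fin n)) ℂ) = C (Polynomial.C τ) :=
    (sb (Polynomial.X : Polynomial ℂ)).commutes τ
  rw [h, map_mul, map_pow]

theorem sb_sysB (P : MvPolynomial (Option (Fin n)) ℂ) (S : Matrix (Option (Fin n)) (Option (Fin n)) ℂ)
    (τ : ℂ) (k : Option (Fin n)) : sb (Polynomial.X : Polynomial ℂ) (sysB P S τ k) =
      sb 1 (pderiv k P) - C (Polynomial.C τ * Polynomial.X) * sb 1 (sl S k) := by
  unfold sysB
  rw [map_sub, map_mul, map_mul, sb_none, sb_dhm, sb_dhm]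
  have h : sb (Polynomial.X : Polynomial ℂ) (C τ : MvPolynomial (Option (Fin n)) ℂ) = C (Polynomial.C τ) :=
    (sb (Polynomial.X : Polynomial ℂ)).commutes τ
  rw [h, map_mul]

theorem top_sys {q : ℕ} (hq : 2 ≤ q) {G L : MvPolynomial (Option (Fin n)) ℂ} (hG : G.IsHomogeneous q)
    (hL : L.IsHomogeneous 1) (x r : Polynomial ℂ) :
    (sb x G - C r * sb x L - map (algebraMap ℂ (Polynomial ℂ)) (sb (0 : ℂ) G)).totalDegree < q := by
  have e : sb x G - C r * sb x L - map (algebraMap ℂ (Polynomial ℂ)) (sb (0 : ℂ) G) =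
      (sb x G - map (algebraMap ℂ (Polynomial ℂ)) (sb (0 : ℂ) G)) - C r * sb x L := by ring
  rw [e]
  have h4 := sb_sub_lt x (by omega) hG
  have h6 : (sb x L).totalDegree ≤ 1 := by
    have h7 := sb_sub_lt x (by omega) hL
    have h8 : (map (algebraMap ℂ (Polynomial ℂ)) (sb (0 : ℂ) L)).totalDegree ≤ 1 :=
      (totalDegree_map_le _ _).trans (sb_hom hL).totalDegree_le
    have h9 : sb x L = (sb x L - map (algebraMap ℂ (Polynomial ℂ)) (sb (0 : ℂ) L)) +
        map (algebraMap ℂ (Polynomial ℂ)) (sb (0 : ℂ) L) := by ring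
    rw [h9]
    exact (totalDegree_add _ _).trans (max_le (by omega) h8)
  have h5 : (C r * sb x L).totalDegree ≤ 1 := by
    refine (totalDegree_mul _ _).trans ?_
    rw [totalDegree_C, zero_add]
    exact h6
  have h3 := totalDegree_sub (sb x G - map (algebraMap ℂ (Polynomial ℂ)) (sb (0 : ℂ) G)) (C r * sb x L)
  omega

theorem dl_sysA {q : ℕ} {P : MvPolynomial (Option (Fin n)) ℂ} (hP : P.IsHomogeneous (q + 1))
    (S : Matrix (Option (Fin n)) (Option (Fin n)) ℂ) (τ : ℂ) (k : Option (Fin n)) :
    dl (sb (Polynomial.X : Polynomial ℂ) (sysA P S q τ k)) =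
      C (Polynomial.X ^ q) * sb (Polynomial.X : Polynomial ℂ) (sysB P S τ k) := by
  have hd : (pderiv k P).IsHomogeneous q := by simpa using hP.pderiv (i := k)
  rw [sb_sysA, sb_sysB, map_sub, dl_sb hd, map_mul, dl_sb (sl_isHomogeneous S k)]
  have h1 : dl (C (Polynomial.C τ * Polynomial.X ^ q) : MvPolynomial (Fin n) (Polynomial ℂ)) =
      C (Polynomial.C τ * Polynomial.X ^ q) := (dl (n := n)).commutes _
  rw [h1, mul_sub, ← mul_assoc, ← mul_assoc, ← map_mul, ← map_mul]
  congr 3
  ring

theorem mem_span_eval {σ : Type*} {ι : Type*} (F : ι → MvPolynomial σ ℂ) (y : σ → ℂ) :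
    (∀ f ∈ Ideal.span (Set.range F), eval y f = 0) ↔ ∀ k, eval y (F k) = 0 := by
  constructor
  · exact fun h k => h _ (Ideal.subset_span ⟨k, rfl⟩)
  · intro h f hf
    have h1 : Ideal.span (Set.range F) ≤ RingHom.ker (eval y) := by
      rw [Ideal.span_le]
      rintro _ ⟨k, rfl⟩
      exact h k
    exact h1 hf

theorem core {q : ℕ} (hq : 2 ≤ q) {P : MvPolynomial (Option (Fin n)) ℂ} (hP : P.IsHomogeneous (q + 1))
    (S : Matrix (Option (Fin n)) (Option (Fin n)) ℂ) (τ : ℂ)
    (hns : ∀ z : Fin n → ℂ, (∀ i, eval z (sb (0 : ℂ) (pderiv (some i) P)) = 0) → z = 0)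
    (hfin : {y : Option (Fin n) → ℂ | ∀ k, eval y (sysB P S τ k) = 0}.Finite)
    (Z : Finset (Option (Fin n) → ℂ))
    (hZ : ∀ y, y ∈ Z ↔ (∀ k, eval y (sysB P S τ k) = 0) ∧ y none = 0) :
    mulAt (Ideal.span (Set.range (sysA P S q τ))) 0 =
      q ^ (n + 1) + ∑ y ∈ Z, mulAt (Ideal.span (Set.range (sysB P S τ))) y := by
  classical
  have hd : ∀ k, (pderiv k P).IsHomogeneous q := fun k => by simpa using hP.pderiv (i := k)
  have hci : CI (fun i => sb (0 : ℂ) (pderiv (some i) P)) (fun _ => q) :=
    ⟨fun _ => by omega, fun i => sb_hom (hd (some i)), hns⟩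
  have hTA : Top (fun i => sb (0 : ℂ) (pderiv (some i) P)) (fun _ => q)
      (fun i => sb (Polynomial.X : Polynomial ℂ) (sysA P S q τ (some i))) := by
    intro i
    show (sb (Polynomial.X : Polynomial ℂ) (sysA P S q τ (some i)) - _).totalDegree < q
    rw [sb_sysA]
    exact top_sys hq (hd _) (sl_isHomogeneous S _) _ _
  have hTB : Top (fun i => sb (0 : ℂ) (pderiv (some i) P)) (fun _ => q)
      (fun i => sb (Polynomial.X : Polynomial ℂ) (sysB P S τ (some i))) := by
    intro i
    show (sb (Polynomial.X : Polynomial ℂ) (sysB P S τ (some i)) - _).totalDegree < q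
    rw [sb_sysB]
    have := top_sys hq (hd (some i)) (sl_isHomogeneous S (some i)) 1 (Polynomial.C τ * Polynomial.X)
    exact this
  have hN := Nm_dl hci q hTA hTB (fun i => dl_sysA hP S τ (some i)) (dl_sysA hP S τ none)
  have hB0 := norm_ne_zero hci (sysB P S τ) hTB hfin
  obtain ⟨ι, _, e, de, he, hcard, hb⟩ := Pool.Agent.helper62.BZ.exists_basis _ _ hci.pos hci.hom hci.zero
  obtain ⟨bA, -⟩ := hb (Polynomial ℂ) _ hTA
  obtain ⟨bB, -⟩ := hb (Polynomial ℂ) _ hTB
  have hA0 : Nm (Polynomial ℂ) (fun i => sb Polynomial.X (sysA P S q τ (some i)))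
      (sb Polynomial.X (sysA P S q τ none)) ≠ 0 := by
    rw [hN]
    exact mul_ne_zero (pow_ne_zero _ Polynomial.X_ne_zero) hB0
  have hroot : (Nm (Polynomial ℂ) (fun i => sb Polynomial.X (sysA P S q τ (some i)))
      (sb Polynomial.X (sysA P S q τ none))).rootMultiplicity 0 = q ^ (n + 1) +
      (Nm (Polynomial ℂ) (fun i => sb Polynomial.X (sysB P S τ (some i)))
      (sb Polynomial.X (sysB P S τ none))).rootMultiplicity 0 := by
    rw [hN] at hA0 ⊢
    rw [Polynomial.rootMultiplicity_mul hA0]
    congr 1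
    have h1 : (Polynomial.X : Polynomial ℂ) = Polynomial.X - Polynomial.C 0 := by simp
    rw [h1, Polynomial.rootMultiplicity_X_sub_C_pow, Finset.prod_const, Finset.card_univ,
      Fintype.card_fin, pow_succ, mul_comm]
  -- system A
  have hA : mulAt (Ideal.span (Set.range (sysA P S q τ))) 0 =
      (Nm (Polynomial ℂ) (fun i => sb Polynomial.X (sysA P S q τ (some i)))
        (sb Polynomial.X (sysA P S q τ none))).rootMultiplicity 0 := by
    have hfree := Module.Free.of_basis bA
    have hfinA := Module.Finite.of_basis bA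
    have h2 := sum_mulAt_eq_rootMultiplicity (prj (sysA P S q τ)) (prj_surj _)
      (prj (sysA P S q τ) (sysA P S q τ none)) hA0 (X none) (prj_b _) {0} (by
        intro y
        have h3 : (∀ f, prj (sysA P S q τ) f ∈ Ideal.span {prj (sysA P S q τ) (sysA P S q τ none)} →
            eval y f = 0) ↔ ∀ k, eval y (sysA P S q τ k) = 0 := by
          rw [← mem_span_eval, ← comap_prj]
          rfl
        rw [h3, Finset.mem_singleton, eval_X]
        constructor
        · rintro rfl
          refine ⟨fun k => ?_, rfl⟩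
          unfold sysA
          have h4 : eval (0 : Option (Fin n) → ℂ) (pderiv k P) = 0 := by
            have h5 := eval_smul_hom (hd k) 0 (0 : Option (Fin n) → ℂ)
            rw [zero_pow (by omega), zero_mul, smul_zero] at h5
            exact h5
          rw [map_sub, h4, map_mul, map_mul, map_pow, eval_X, Pi.zero_apply, zero_pow (by omega)]
          ring
        · rintro ⟨h4, h5⟩
          have h6 := hns (fun i => y (some i)) (fun i => by
            have h7 := h4 (some i)
            unfold sysA at h7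
            rw [map_sub, map_mul, map_mul, map_pow, eval_X, h5, zero_pow (by omega), mul_zero,
              zero_mul, sub_zero] at h7
            rw [eval_sb']
            have h8 : (fun o : Option (Fin n) => o.elim (0 : ℂ) fun i => y (some i)) = y := by
              funext o
              cases o with
              | none => exact h5.symm
              | some i => rfl
            rw [h8]
            exact h7)
          funext o
          cases o with
          | none => exact h5
          | some i => exact congrFun h6 i)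
    rw [Finset.sum_singleton, comap_prj] at h2
    exact h2
  have hB : ∑ y ∈ Z, mulAt (Ideal.span (Set.range (sysB P S τ))) y =
      (Nm (Polynomial ℂ) (fun i => sb Polynomial.X (sysB P S τ (some i)))
        (sb Polynomial.X (sysB P S τ none))).rootMultiplicity 0 := by
    have hfree := Module.Free.of_basis bB
    have hfinB := Module.Finite.of_basis bB
    have h2 := sum_mulAt_eq_rootMultiplicity (prj (sysB P S τ)) (prj_surj _)
      (prj (sysB P S τ) (sysB P S τ none)) hB0 (X none) (prj_b _) Z (by
        intro y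
        have h3 : (∀ f, prj (sysB P S τ) f ∈ Ideal.span {prj (sysB P S τ) (sysB P S τ none)} →
            eval y f = 0) ↔ ∀ k, eval y (sysB P S τ k) = 0 := by
          rw [← mem_span_eval, ← comap_prj]
          rfl
        rw [h3, hZ, eval_X])
    rw [comap_prj] at h2
    exact h2
  rw [hA, hroot, hB]

end Core

end EY
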