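import Pool.Agent.helper2.EY.SheetB
import Pool.Agent.helper81.EY.IDef

set_option autoImplicit false
set_option linter.unusedSectionVars false

/-!
# EY-SheetI: the special sheet lemma in the normal form `IQD`
-/

namespace EY

open MvPolynomial Pool.Agent.helper62.NP

section Ren

variable {σ σ' : Type}

theorem mulAt_renameEquiv (e : σ ≃ σ') (I : Ideal (MvPolynomial σ ℂ)) (p : σ → ℂ) :
    mulAt I p = mulAt (I.map (rename e : MvPolynomial σ ℂ →ₐ[ℂ] MvPolynomial σ' ℂ)) (p ∘ e.symm) := by
  refine mulAt_map (rename e) ?_ I ?_ p _ ?_
  · intro y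
    refine ⟨rename e.symm y, ?_⟩
    rw [rename_rename]
    simp
  · intro x hx
    have h1 : x = 0 := rename_injective e e.injective (by rw [hx, map_zero])
    rw [h1]
    exact Ideal.zero_mem _
  · intro x
    rw [eval_rename]
    congr 2
    funext i
    simp

theorem span_map_range {ι ι' : Type} (φ : MvPolynomial σ ℂ →ₐ[ℂ] MvPolynomial σ' ℂ) (e : ι ≃ ι')
    (F : ι → MvPolynomial σ ℂ) (G : ι' → MvPolynomial σ' ℂ) (h : ∀ i, φ (F i) = G (e i)) :
    (Ideal.span (Set.range F)).map φ = Ideal.span (Set.range G) := by
  rw [Ideal.map_span, ← Set.range_comp]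
  congr 1
  ext x
  constructor
  · rintro ⟨i, rfl⟩
    exact ⟨e i, (h i).symm⟩
  · rintro ⟨i', rfl⟩
    refine ⟨e.symm i', ?_⟩
    show φ (F (e.symm i')) = _
    rw [h, e.apply_symm_apply]

end Ren

section Elim

variable {n : ℕ}

theorem dhm_eq (F : MvPolynomial (Option (Fin n)) ℂ) : dhm F = rename some (dehom F) := by
  have h : dhm (n := n) = (rename some).comp dehom := by
    apply algHom_ext
    intro o
    rw [AlgHom.comp_apply]
    unfold dhm
    rw [aeval_X]
    cases o with
    | none => rw [dehom_X_none, map_one]; rfl
    | some i => rw [dehom_X_some, rename_X]; rfl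
  exact DFunLike.congr_fun h F

theorem sl_one {κ : Type} [Fintype κ] [DecidableEq κ] (j : κ) : sl (1 : Matrix κ κ ℂ) j = X j := by
  unfold sl
  rw [Finset.sum_eq_single j]
  · rw [Matrix.one_apply_eq, map_one, one_mul]
  · intro k _ hk
    rw [Matrix.one_apply_ne (Ne.symm hk), map_zero, zero_mul]
  · intro h
    exact absurd (Finset.mem_univ j) h

/-- the variable `b` is eliminated -/
theorem mulAt_sysB_one (P : MvPolynomial (Option (Fin n)) ℂ) {t : ℂ} (ht : t ≠ 0) (y : Option (Fin n) → ℂ)
    (hy : ∀ k, eval y (sysB P 1 t k) = 0) :
    mulAt (Ideal.span (Set.range (sysB P 1 t))) y =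
      mulAt (affIdeal P (1 : Matrix (Option (Fin n)) (Option (Fin n)) ℂ) none) (fun i => y (some i)) := by
  have hCC : (C t⁻¹ * C t : MvPolynomial (Option (Fin n)) ℂ) = 1 := by
    rw [← map_mul, inv_mul_cancel₀ ht, map_one]
  have hn : sysB P 1 t none = dhm (pderiv none P) - C t * X none := by
    unfold sysB
    rw [sl_one, dhm_eq (X none), dehom_X_none, map_one, mul_one]
  have h1 : (X none - rename some (C t⁻¹ * dehom (pderiv none P)) : MvPolynomial (Option (Fin n)) ℂ) =
      - C t⁻¹ * sysB P 1 t none := by
    rw [hn, map_mul, rename_C, ← dhm_eq]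
    have : - C t⁻¹ * (dhm (pderiv none P) - C t * X none) =
        (C t⁻¹ * C t) * X none - C t⁻¹ * dhm (pderiv none P) := by ring
    rw [this, hCC, one_mul]
  rw [mulAt_subN (C t⁻¹ * dehom (pderiv none P)) (Ideal.span (Set.range (sysB P 1 t))) ?_ y ?_]
  · congr 1
    refine span_map_range (subN _) (Equiv.refl _) _ _ fun k => ?_
    show subN _ (sysB P 1 t k) = dehom (pderiv k P - sl 1 k * pderiv none P)
    unfold sysB
    rw [map_sub, map_mul, map_mul, subN_none, dhm_eq, dhm_eq, subN_rename, subN_rename, map_sub, map_mul]
    have h2 : subN (C t⁻¹ * dehom (pderiv none P)) (C t) = C t := (subN _).commutes t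
    rw [h2]
    have h3 : (C t * C t⁻¹ : MvPolynomial (Fin n) ℂ) = 1 := by
      rw [← map_mul, mul_inv_cancel₀ ht, map_one]
    congr 1
    calc C t * (C t⁻¹ * dehom (pderiv none P)) * dehom (sl 1 k) =
        (C t * C t⁻¹) * (dehom (sl 1 k) * dehom (pderiv none P)) := by ring
      _ = _ := by rw [h3, one_mul]
  · rw [h1]
    exact Ideal.mul_mem_left _ _ (Ideal.subset_span ⟨none, rfl⟩)
  · have h4 := hy none
    rw [hn, map_sub, map_mul, eval_C, eval_X, sub_eq_zero, dhm_eq, eval_rename] at h4
    rw [map_mul, eval_C]
    have h5 : eval (fun i => y (some i)) (dehom (pderiv none P)) = t * y none := h4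
    rw [h5, ← mul_assoc, inv_mul_cancel₀ ht, one_mul]

end Elim

theorem special_sheet {τ : Type} [Fintype τ] [DecidableEq τ] {q M : ℕ} (hq : 2 ≤ q)
    {P : MvPolynomial (Option τ) ℂ} {S : Finset (τ → ℂ)} (h : IQD q τ P S M) {t : ℂ} (ht : t ≠ 0) :
    mulAt (Ideal.span (Set.range fun j : Option τ => pderiv j P - C t * X none ^ q * X j)) 0 =
      q ^ (Fintype.card τ + 1) + M := by
  classical
  obtain ⟨n, hn⟩ : ∃ n, n = Fintype.card τ := ⟨_, rfl⟩
  have e : τ ≃ Fin n := Fintype.equivFinOfCardEq hn.symm
  set e' : Option τ ≃ Option (Fin n) := Equiv.optionCongr e with he'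
  have e'n : e' none = none := rfl
  have e's : ∀ i, e' (some i) = some (e i) := fun i => rfl
  set P' : MvPolynomial (Option (Fin n)) ℂ := rename e' P with hP'
  have hpd : ∀ j, rename e' (pderiv j P) = pderiv (e' j) P' := fun j =>
    (pderiv_rename e'.injective j P).symm
  have hpd' : ∀ (y : Option (Fin n) → ℂ) (j : Option τ),
      eval y (pderiv (e' j) P') = eval (y ∘ e') (pderiv j P) := by
    intro y j
    rw [← hpd, eval_rename]
  have hhom : P'.IsHomogeneous (q + 1) := h.hom.rename_isHomogeneous
  -- the left side
  have h1 : mulAt (Ideal.span (Set.range fun j : Option τ => pderiv j P - C t * X none ^ q * X j)) 0 =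
      mulAt (Ideal.span (Set.range (sysA P' 1 q t))) 0 := by
    rw [mulAt_renameEquiv e', span_map_range (rename e') e' _ (sysA P' 1 q t)]
    · rfl
    · intro j
      unfold sysA
      rw [map_sub, map_mul, map_mul, map_pow, rename_X, rename_X, rename_C, hpd, sl_one, e'n]
  have hT := h.fin
  obtain ⟨T, hTf, hT'⟩ := hT
  -- zeros of the second system
  have hev : ∀ y : Option (Fin n) → ℂ, (∀ k, eval y (sysB P' 1 t k) = 0) → ∀ j : Option τ,
      eval (fun o : Option τ => o.elim 1 fun i => y (some (e i))) (pderiv j P) =
        t * y none * (fun o : Option τ => o.elim (1 : ℂ) fun i => y (some (e i))) j := by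
    intro y hy j
    have h2 := hy (e' j)
    unfold sysB at h2
    rw [map_sub, map_mul, map_mul, eval_C, eval_X, dhm_eq, dhm_eq, eval_rename, eval_rename, eval_dehom,
      eval_dehom, sl_one, eval_X, sub_eq_zero, hpd'] at h2
    have h3 : ((fun o : Option (Fin n) => o.elim (1 : ℂ) (y ∘ some)) ∘ e') =
        fun o : Option τ => o.elim (1 : ℂ) fun i => y (some (e i)) := by
      funext o
      cases o with
      | none => rfl
      | some i => rfl
    rw [h3] at h2
    rw [h2]
    congr 1
    exact congrFun h3 j
  have hcore := core hq hhom 1 t (by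
      intro z hz
      have h2 := h.ns (fun o : Option τ => o.elim 0 fun i => z (e i)) rfl (fun i => by
        have h3 := hz (e i)
        rw [eval_sb', ← e's, hpd'] at h3
        have h4 : ((fun o : Option (Fin n) => o.elim (0 : ℂ) z) ∘ e') =
            fun o : Option τ => o.elim (0 : ℂ) fun i => z (e i) := by
          funext o
          cases o with
          | none => rfl
          | some i => rfl
        rw [h4] at h3
        exact h3)
      funext i
      have h5 := congrFun h2 (some (e.symm i))
      simpa using h5)
    (by
      refine Set.Finite.of_finite_image (f := fun y : Option (Fin n) → ℂ => fun i : τ => y (some (e i)))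
        ((hTf.image fun v : Option τ → ℂ => fun i : τ => (v none)⁻¹ * v (some i)).subset ?_) ?_
      · rintro _ ⟨y, hy, rfl⟩
        have h2 := hev y hy
        obtain ⟨v, hv, c, hc⟩ := hT' (fun o : Option τ => o.elim 1 fun i => y (some (e i))) (by
          intro i j
          rw [h2, h2]
          ring)
        refine ⟨v, hv, ?_⟩
        have h0 : c * v none = 1 := (congrFun hc none).symm
        have hc' : c = (v none)⁻¹ := eq_inv_of_mul_eq_one_left h0
        funext i
        have h8 : y (some (e i)) = c * v (some i) := congrFun hc (some i)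
        show (v none)⁻¹ * v (some i) = y (some (e i))
        rw [h8, hc']
      · intro y hy y' hy' hyy
        have h2 := hev y hy none
        have h3 := hev y' hy' none
        have h4 : (fun o : Option τ => o.elim (1 : ℂ) fun i => y (some (e i))) =
            fun o : Option τ => o.elim (1 : ℂ) fun i => y' (some (e i)) := by
          funext o
          cases o with
          | none => rfl
          | some i => exact congrFun hyy i
        rw [h4, h3] at h2
        have h5 : t * y' none * 1 = t * y none * 1 := h2
        funext o
        cases o with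
        | none =>
          rw [mul_one, mul_one] at h5
          exact (mul_left_cancel₀ ht h5).symm
        | some i =>
          have h6 := congrFun hyy (e.symm i)
          simpa using h6)
    (S.image fun z : τ → ℂ => fun o : Option (Fin n) => o.elim 0 fun i => z (e.symm i)) (by
      intro y
      rw [Finset.mem_image]
      constructor
      · rintro ⟨z, hz, rfl⟩
        have h2 := (h.sing z).1 hz
        refine ⟨fun k => ?_, rfl⟩
        obtain ⟨j, rfl⟩ := e'.surjective k
        unfold sysB
        rw [map_sub, map_mul, map_mul, eval_X]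
        simp only [Option.elim, mul_zero, zero_mul, sub_zero]
        rw [dhm_eq, eval_rename, eval_dehom, hpd']
        have h3 : ((fun o : Option (Fin n) => o.elim (1 : ℂ)
            ((fun o : Option (Fin n) => o.elim 0 fun i => z (e.symm i)) ∘ some)) ∘ e') =
            fun o : Option τ => o.elim 1 z := by
          funext o
          cases o with
          | none => rfl
          | some i => simp [e's]
        have h4 := h2 j
        rw [← h3] at h4
        exact h4
      · rintro ⟨hy, hy0⟩
        refine ⟨fun i => y (some (e i)), (h.sing _).2 fun j => ?_, ?_⟩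
        · have h2 := hev y hy j
          rw [hy0, mul_zero, zero_mul] at h2
          exact h2
        · funext o
          cases o with
          | none => exact hy0.symm
          | some i => simp)
  rw [h1, hcore, Finset.sum_image, ← hn]
  · congr 1
    rw [← h.sum]
    refine Finset.sum_congr rfl fun z hz => ?_
    have h2 := (h.sing z).1 hz
    rw [mulAt_sysB_one P' ht]
    · -- the affine chart
      rw [mulAt_renameEquiv e (affIdeal P (1 : Matrix (Option τ) (Option τ) ℂ) none) z]
      have h5 : (affIdeal P (1 : Matrix (Option τ) (Option τ) ℂ) none).map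
          (rename e : MvPolynomial τ ℂ →ₐ[ℂ] MvPolynomial (Fin n) ℂ) =
          affIdeal P' (1 : Matrix (Option (Fin n)) (Option (Fin n)) ℂ) none := by
        unfold affIdeal
        refine span_map_range (rename e) e' _ _ fun j => ?_
        have h6 : ∀ F : MvPolynomial (Option τ) ℂ, rename e (dehom F) = dehom (rename e' F) := by
          intro F
          have h7 : (rename e : MvPolynomial τ ℂ →ₐ[ℂ] MvPolynomial (Fin n) ℂ).comp dehom =
              dehom.comp (rename e') := by
            apply algHom_ext
            intro o
            rw [AlgHom.comp_apply, AlgHom.comp_apply, rename_X]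
            cases o with
            | none => rw [e'n, dehom_X_none, dehom_X_none, map_one]
            | some i => rw [e's, dehom_X_some, dehom_X_some, rename_X]
          exact DFunLike.congr_fun h7 F
        rw [h6]
        congr 1
        rw [map_sub, map_mul, sl_one, sl_one, rename_X, hpd, hpd, e'n]
      rw [h5]
      rfl
    · intro k
      obtain ⟨j, rfl⟩ := e'.surjective k
      unfold sysB
      rw [map_sub, map_mul, map_mul, eval_X]
      simp only [Option.elim, mul_zero, zero_mul, sub_zero]
      rw [dhm_eq, eval_rename, eval_dehom, hpd']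
      have h3 : ((fun o : Option (Fin n) => o.elim (1 : ℂ)
          ((fun o : Option (Fin n) => o.elim 0 fun i => z (e.symm i)) ∘ some)) ∘ e') =
          fun o : Option τ => o.elim 1 z := by
        funext o
        cases o with
        | none => rfl
        | some i => simp [e's]
      have h4 := h2 j
      rw [← h3] at h4
      exact h4
  · intro z _ z' _ hzz
    funext i
    have h2 := congrFun hzz (some (e i))
    simpa using h2

end EY
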