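import Pool.Agent.helper46.U.Gen
import Pool.Agent.helper44.U.Count
import Pool.Agent.helper51.EY.ZDef

set_option autoImplicit false
set_option linter.unusedSectionVars false
set_option linter.unusedSimpArgs false

/-!
# EY-T1S: the states with `φ_w = ε w^(q-3) (w - b) (σ - w²)` of the step T1

From any state `ψ(σ; b, z)` with the number `E` we get a state `φ(σ; w, b, z)` with the number `E + q^(K+1)`,
`φ_w = ε w^(q-2) (σ - w²) + b G`, without critical points with `b = 0`, `w ≠ 0`.
-/

namespace EY.T1S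

open MvPolynomial Filter Topology

noncomputable section

variable {ρ : Type} [Fintype ρ] [DecidableEq ρ]

/-- the polynomials in `σ, w, b, z` -/
abbrev P3 (ρ : Type) := MvPolynomial (Option (Option (Option ρ))) ℂ

/-- `∫_b^w t^n (t - b) (σ - t²) dt` -/
def BB (ρ : Type) (n : ℕ) : P3 ρ :=
  X none * (C ((n : ℂ) + 2)⁻¹ * (X (some none) ^ (n + 2) - X (some (some none)) ^ (n + 2)) -
      C ((n : ℂ) + 1)⁻¹ * (X (some (some none)) * (X (some none) ^ (n + 1) - X (some (some none)) ^ (n + 1)))) -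
    (C ((n : ℂ) + 4)⁻¹ * (X (some none) ^ (n + 4) - X (some (some none)) ^ (n + 4)) -
      C ((n : ℂ) + 3)⁻¹ * (X (some (some none)) * (X (some none) ^ (n + 3) - X (some (some none)) ^ (n + 3))))

/-- `w^n (w - b) (σ - w²)` -/
def AA (ρ : Type) (n : ℕ) : P3 ρ :=
  X (some none) ^ n * (X (some none) - X (some (some none))) * (X none - X (some none) ^ 2)

/-- the derivative of `BB` with respect to `b` -/
def BBb (ρ : Type) (n : ℕ) : P3 ρ :=
  C ((n : ℂ) + 3)⁻¹ * (X (some none) ^ (n + 3) - X (some (some none)) ^ (n + 3)) -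
    C ((n : ℂ) + 1)⁻¹ * (X none * (X (some none) ^ (n + 1) - X (some (some none)) ^ (n + 1)))

theorem inv_nat (n k : ℕ) (hk : k ≠ 0) :
    (C ((n : ℂ) + (k : ℂ))⁻¹ : P3 ρ) * ((n : P3 ρ) + ((k : ℕ) : P3 ρ)) = 1 := by
  have h1 : ((n : P3 ρ) + ((k : ℕ) : P3 ρ)) = C ((n : ℂ) + (k : ℂ)) := by
    rw [map_add, map_natCast, map_natCast]
  rw [h1, ← C_mul, inv_mul_cancel₀, C_1]
  have : n + k ≠ 0 := by omega
  exact_mod_cast this

theorem pderiv_BB_w (n : ℕ) : pderiv (some none) (BB ρ n) = AA ρ n := by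
  have h1 : (C ((n : ℂ) + 1)⁻¹ : P3 ρ) * ((n : P3 ρ) + 1) = 1 := by
    simpa using inv_nat (ρ := ρ) n 1 (by norm_num)
  have h2 : (C ((n : ℂ) + 2)⁻¹ : P3 ρ) * ((n : P3 ρ) + 2) = 1 := by
    simpa using inv_nat (ρ := ρ) n 2 (by norm_num)
  have h3 : (C ((n : ℂ) + 3)⁻¹ : P3 ρ) * ((n : P3 ρ) + 3) = 1 := by
    simpa using inv_nat (ρ := ρ) n 3 (by norm_num)
  have h4 : (C ((n : ℂ) + 4)⁻¹ : P3 ρ) * ((n : P3 ρ) + 4) = 1 := by
    simpa using inv_nat (ρ := ρ) n 4 (by norm_num)
  have e0 : pderiv (some none) (X none : P3 ρ) = 0 := by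
    rw [pderiv_X, Pi.single_eq_of_ne (by simp)]
  have e1 : pderiv (some none) (X (some none) : P3 ρ) = 1 := pderiv_X_self _
  have e2 : pderiv (some none) (X (some (some none)) : P3 ρ) = 0 := by
    rw [pderiv_X, Pi.single_eq_of_ne (by simp)]
  unfold BB AA
  simp only [map_sub, Derivation.leibniz, pderiv_C, Derivation.leibniz_pow, e0, e1, e2, smul_eq_mul,
    nsmul_eq_mul, mul_one, mul_zero, add_zero, smul_zero, sub_zero, zero_add, zero_mul]
  push_cast
  linear_combination (X none * X (some none) ^ (n + 1)) * h2 -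
    (X none * X (some (some none)) * X (some none) ^ n) * h1 -
    (X (some none) ^ (n + 3)) * h4 + (X (some (some none)) * X (some none) ^ (n + 2)) * h3

theorem pderiv_BB_b (n : ℕ) : pderiv (some (some none)) (BB ρ n) = BBb ρ n := by
  have h1 : (C ((n : ℂ) + 1)⁻¹ : P3 ρ) * ((n : P3 ρ) + 1) = 1 := by
    simpa using inv_nat (ρ := ρ) n 1 (by norm_num)
  have h2 : (C ((n : ℂ) + 2)⁻¹ : P3 ρ) * ((n : P3 ρ) + 2) = 1 := by
    simpa using inv_nat (ρ := ρ) n 2 (by norm_num)
  have h3 : (C ((n : ℂ) + 3)⁻¹ : P3 ρ) * ((n : P3 ρ) + 3) = 1 := by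
    simpa using inv_nat (ρ := ρ) n 3 (by norm_num)
  have h4 : (C ((n : ℂ) + 4)⁻¹ : P3 ρ) * ((n : P3 ρ) + 4) = 1 := by
    simpa using inv_nat (ρ := ρ) n 4 (by norm_num)
  have e0 : pderiv (some (some none)) (X none : P3 ρ) = 0 := by
    rw [pderiv_X, Pi.single_eq_of_ne (by simp)]
  have e1 : pderiv (some (some none)) (X (some none) : P3 ρ) = 0 := by
    rw [pderiv_X, Pi.single_eq_of_ne (by simp)]
  have e2 : pderiv (some (some none)) (X (some (some none)) : P3 ρ) = 1 := pderiv_X_self _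
  unfold BB BBb
  simp only [map_sub, Derivation.leibniz, pderiv_C, Derivation.leibniz_pow, e0, e1, e2, smul_eq_mul,
    nsmul_eq_mul, mul_one, mul_zero, add_zero, smul_zero, sub_zero, zero_add, zero_mul]
  push_cast
  linear_combination (-(X none * X (some (some none)) ^ (n + 1))) * h2 +
    (X none * X (some (some none)) ^ (n + 1)) * h1 +
    (X (some (some none)) ^ (n + 3)) * h4 - (X (some (some none)) ^ (n + 3)) * h3

theorem pderiv_BB_z (n : ℕ) (r : ρ) : pderiv (some (some (some r))) (BB ρ n) = 0 := by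
  have e0 : pderiv (some (some (some r))) (X none : P3 ρ) = 0 := by
    rw [pderiv_X, Pi.single_eq_of_ne (by simp)]
  have e1 : pderiv (some (some (some r))) (X (some none) : P3 ρ) = 0 := by
    rw [pderiv_X, Pi.single_eq_of_ne (by simp)]
  have e2 : pderiv (some (some (some r))) (X (some (some none)) : P3 ρ) = 0 := by
    rw [pderiv_X, Pi.single_eq_of_ne (by simp)]
  unfold BB
  simp only [map_sub, Derivation.leibniz, pderiv_C, Derivation.leibniz_pow, e0, e1, e2, smul_eq_mul,
    nsmul_eq_mul, mul_one, mul_zero, add_zero, smul_zero, sub_zero, zero_add, zero_mul]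

theorem wh_BB {q n : ℕ} (hq : q = n + 3) : wh (vw (Option ρ)) (q + 1) (BB ρ n) := by
  subst hq
  have hw : ∀ k, wh (vw (Option ρ)) k (X (some none) ^ k : P3 ρ) := fun k => by
    have := wh_pow (wh_X (vw (Option ρ)) (some none)) k
    simpa [vw] using this
  have hb : ∀ k, wh (vw (Option ρ)) k (X (some (some none)) ^ k : P3 ρ) := fun k => by
    have := wh_pow (wh_X (vw (Option ρ)) (some (some none))) k
    simpa [vw] using this
  have hb1 : wh (vw (Option ρ)) 1 (X (some (some none)) : P3 ρ) := wh_X (vw (Option ρ)) (some (some none))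
  have hs : wh (vw (Option ρ)) 2 (X none : P3 ρ) := wh_X (vw (Option ρ)) none
  unfold BB
  refine wh_sub ?_ ?_
  · have h1 := wh_mul hs (wh_sub (wh_C_mul ((n : ℂ) + 2)⁻¹ (wh_sub (hw (n + 2)) (hb (n + 2))))
      (by
        have := wh_C_mul ((n : ℂ) + 1)⁻¹ (wh_mul hb1 (wh_sub (hw (n + 1)) (hb (n + 1))))
        rw [show 1 + (n + 1) = n + 2 by omega] at this
        exact this))
    rw [show 2 + (n + 2) = n + 3 + 1 by omega] at h1
    exact h1
  · refine wh_sub (wh_C_mul _ (wh_sub (hw _) (hb _))) ?_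
    have := wh_C_mul ((n : ℂ) + 3)⁻¹ (wh_mul hb1 (wh_sub (hw (n + 3)) (hb (n + 3))))
    rw [show 1 + (n + 3) = n + 3 + 1 by omega] at this
    exact this

/-! ### the count -/

/-- the form -/
def FF (ψ : MvPolynomial (Option (Option ρ)) ℂ) (n : ℕ) (ε : ℂ) : P3 ρ := up ψ + C ε * BB ρ n

theorem FF_w (ψ : MvPolynomial (Option (Option ρ)) ℂ) (n : ℕ) (ε : ℂ) :
    pderiv (some none) (FF ψ n ε) = C ε * AA ρ n := by
  unfold FF
  rw [map_add, pderiv_up_w, pderiv_C_mul, pderiv_BB_w, zero_add]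

theorem FF_b (ψ : MvPolynomial (Option (Option ρ)) ℂ) (n : ℕ) (ε : ℂ) :
    pderiv (some (some none)) (FF ψ n ε) = up (pderiv (some none) ψ) + C ε * BBb ρ n := by
  unfold FF
  rw [map_add, pderiv_up_some, pderiv_C_mul, pderiv_BB_b]

theorem FF_z (ψ : MvPolynomial (Option (Option ρ)) ℂ) (n : ℕ) (ε : ℂ) (r : ρ) :
    pderiv (some (some (some r))) (FF ψ n ε) = up (pderiv (some (some r)) ψ) := by
  unfold FF
  rw [map_add, pderiv_up_some, pderiv_C_mul, pderiv_BB_z, mul_zero, add_zero]

theorem ev1_s {τ : Type} : ev1 (X none : MvPolynomial (Option (Option τ)) ℂ) = X none := by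
  unfold ev1; rw [aeval_X]; rfl

theorem ev1_w {τ : Type} : ev1 (X (some none) : MvPolynomial (Option (Option τ)) ℂ) = 1 := by
  unfold ev1; rw [aeval_X]; rfl

theorem ev1_x {τ : Type} (i : τ) : ev1 (X (some (some i)) : MvPolynomial (Option (Option τ)) ℂ) = X (some i) := by
  unfold ev1; rw [aeval_X]; rfl

theorem ev1_C {τ : Type} (c : ℂ) : ev1 (C c : MvPolynomial (Option (Option τ)) ℂ) = C c :=
  (ev1 (τ := τ)).commutes c

theorem critOne_FF_none (ψ : MvPolynomial (Option (Option ρ)) ℂ) (n : ℕ) (ε : ℂ) :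
    critOne (FF ψ n ε) none = C ε * ((1 - X (some none)) * (X none - 1)) := by
  change ev1 (pderiv (some none) (FF ψ n ε)) = _
  rw [FF_w]
  unfold AA
  simp only [map_mul, map_sub, map_pow, ev1_s, ev1_w, ev1_x, ev1_C, one_pow, one_mul]

theorem elim_ev1_up (F : MvPolynomial (Option (Option ρ)) ℂ) : elimY 1 (ev1 (up F)) = ev1 F := by
  have h : ((elimY (1 : MvPolynomial (Option ρ) ℂ)).comp (ev1 (τ := Option ρ))).comp
      (rename (Option.map some)) = ev1 (τ := ρ) := by
    apply MvPolynomial.algHom_ext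
    intro o
    rcases o with _ | _ | r
    · simp only [AlgHom.comp_apply, rename_X, Option.map_none, ev1_s, elimY_none]
    · simp only [AlgHom.comp_apply, rename_X, Option.map_some, ev1_x, elimY_y, ev1_w]
    · simp only [AlgHom.comp_apply, rename_X, Option.map_some, ev1_x, elimY_some]
  exact AlgHom.congr_fun h F

theorem elimY_C' {ι : Type} (c : MvPolynomial (Option ι) ℂ) (a : ℂ) : elimY c (C a) = C a :=
  (elimY c).commutes a

theorem elim_critOne (ψ : MvPolynomial (Option (Option ρ)) ℂ) (n : ℕ) (ε : ℂ) (j : Option ρ) :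
    elimY 1 (critOne (FF ψ n ε) (some j)) = critOne ψ j := by
  rcases j with _ | r
  · change elimY 1 (ev1 (pderiv (some (some none)) (FF ψ n ε))) = ev1 (pderiv (some none) ψ)
    rw [FF_b, map_add, map_add, elim_ev1_up]
    unfold BBb
    simp only [map_mul, map_sub, map_pow, ev1_s, ev1_w, ev1_x, ev1_C, one_pow, elimY_none, elimY_y, elimY_C',
      map_one, sub_self, mul_zero, add_zero]
  · change elimY 1 (ev1 (pderiv (some (some (some r))) (FF ψ n ε))) = ev1 (pderiv (some (some r)) ψ)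
    rw [FF_z, elim_ev1_up]

/-- the sheet `w = b` -/
theorem cnt_sheet {q E : ℕ} {ψ : MvPolynomial (Option (Option ρ)) ℂ} (h : St ρ q E ψ) (n : ℕ) (ε : ℂ) :
    Module.Finite ℂ (MvPolynomial (Option (Option ρ)) ℂ ⧸
      Ideal.span (Set.range (Function.update (critOne (FF ψ n ε)) none (1 - X (some none))))) ∧
    Module.finrank ℂ (MvPolynomial (Option (Option ρ)) ℂ ⧸
      Ideal.span (Set.range (Function.update (critOne (FF ψ n ε)) none (1 - X (some none))))) = E := by
  have h1 : Ideal.span (Set.range (Function.update (critOne (FF ψ n ε)) none (1 - X (some none)))) =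
      Ideal.span ({X (some none) - rename (Option.map some) (1 : MvPolynomial (Option ρ) ℂ)} ∪
        Set.range fun j : Option ρ => critOne (FF ψ n ε) (some j)) := by
    rw [map_one]
    apply le_antisymm
    · rw [Ideal.span_le]
      rintro _ ⟨o, rfl⟩
      rcases o with _ | j
      · rw [Function.update_self]
        have : (1 - X (some none) : MvPolynomial (Option (Option ρ)) ℂ) = -(X (some none) - 1) := by ring
        rw [this]
        exact neg_mem (Ideal.subset_span (Or.inl rfl))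
      · rw [Function.update_of_ne (by simp)]
        exact Ideal.subset_span (Or.inr ⟨j, rfl⟩)
    · rw [Ideal.span_le]
      rintro x (hx | ⟨j, rfl⟩)
      · rw [Set.mem_singleton_iff.mp hx]
        have : (X (some none) - 1 : MvPolynomial (Option (Option ρ)) ℂ) = -(1 - X (some none)) := by ring
        rw [this]
        exact neg_mem (Ideal.subset_span ⟨none, Function.update_self _ _ _⟩)
      · exact Ideal.subset_span ⟨some j, Function.update_of_ne (by simp) _ _⟩
  have h2 : (Set.range fun j : Option ρ => elimY 1 (critOne (FF ψ n ε) (some j))) =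
      Set.range (critOne ψ) := by
    congr 1
    funext j
    exact elim_critOne ψ n ε j
  rw [h1]
  refine ⟨?_, ?_⟩
  · rw [cnt_elim_finite, h2]
    exact h.fin
  · rw [cnt_elim_finrank, h2]
    exact h.len

/-- the substitution `w ↦ 0` -/
def ev0 {τ : Type} : MvPolynomial (Option (Option τ)) ℂ →ₐ[ℂ] MvPolynomial (Option τ) ℂ :=
  aeval fun o => o.elim (X none) fun o' => o'.elim 0 fun i => X (some i)

theorem eval_ev0 {τ : Type} (p : Option τ → ℂ) (ψ : MvPolynomial (Option (Option τ)) ℂ) :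
    eval p (ev0 ψ) = eval (fun o : Option (Option τ) => o.elim (p none) fun o' => o'.elim 0 fun i => p (some i)) ψ := by
  have h : (eval p).comp (ev0 : MvPolynomial (Option (Option τ)) ℂ →ₐ[ℂ] _).toRingHom =
      eval (fun o : Option (Option τ) => o.elim (p none) fun o' => o'.elim 0 fun i => p (some i)) := by
    apply MvPolynomial.ringHom_ext
    · intro c
      simp
    · intro o
      rcases o with _ | _ | o <;> simp [ev0]
  exact RingHom.congr_fun h ψ

theorem wh_ev0 {τ : Type} [Fintype τ] [DecidableEq τ] {m : ℕ} {ψ : MvPolynomial (Option (Option τ)) ℂ}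
    (h : wh (vw τ) m ψ) : wh (w21 τ) m (ev0 ψ) := by
  unfold ev0
  refine wh_aeval (v := vw τ) ?_ h
  intro o
  rcases o with _ | _ | o
  · exact wh_X (w21 τ) none
  · exact wh_zero _ _
  · exact wh_X (w21 τ) (some o)

theorem top_ev1 {τ : Type} [Fintype τ] [DecidableEq τ] {m : ℕ} {ψ : MvPolynomial (Option (Option τ)) ℂ}
    (h : wh (vw τ) m ψ) : Top (w21 τ) m (ev1 ψ) (ev0 ψ) := by
  unfold ev1 ev0
  refine Top.aeval (v := vw τ) ?_ (Top.self h.wlt)
  intro o
  rcases o with _ | _ | o
  · exact Top.X (w21 τ) none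
  · exact Top.zero (wh_one (w21 τ)).wlt
  · exact Top.X (w21 τ) (some o)

/-- the sheet `σ = w²` -/
theorem cnt_quadric {q : ℕ} (hq : 0 < q) {φ : P3 ρ} (hφ : Nd (Option ρ) q φ) :
    Module.Finite ℂ (MvPolynomial (Option (Option ρ)) ℂ ⧸
      Ideal.span (Set.range (Function.update (critOne φ) none (X none - 1)))) ∧
    Module.finrank ℂ (MvPolynomial (Option (Option ρ)) ℂ ⧸
      Ideal.span (Set.range (Function.update (critOne φ) none (X none - 1)))) =
      q ^ (Fintype.card ρ + 1) := by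
  have hx : ∀ i : Option (Option ρ), wh (vw (Option ρ)) q (pderiv (some i) φ) := fun i =>
    wh_pderiv hφ.wh _ q (by rcases i with _ | i <;> rfl)
  obtain ⟨h1, h2⟩ := wAff (σ := Option (Option ρ)) (w := w21 (Option ρ))
    (f := Function.update (critOne φ) none (X none - 1))
    (g := fun o : Option (Option ρ) => o.elim (X none) fun j => ev0 (pderiv (some (some j)) φ))
    (d := fun o => o.elim 2 fun _ => q)
    (by intro i; rcases i with _ | i <;> simp [w21])
    (by intro i; rcases i with _ | i <;> simp [hq])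
    (by
      intro i
      rcases i with _ | i
      · exact wh_X (w21 (Option ρ)) none
      · exact wh_ev0 (hx (some i)))
    (by
      intro p hp
      have hp0 : p none = 0 := by
        have := hp none
        simpa using this
      have h3 := hφ.ndx (fun o => o.elim (p none) fun o' => o'.elim 0 fun i => p (some i)) hp0 rfl
        (fun i => by
          have h4 := hp (some i)
          change eval p (ev0 (pderiv (some (some i)) φ)) = 0 at h4
          rw [eval_ev0] at h4
          exact h4)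
      funext o
      rcases o with _ | i
      · exact hp0
      · exact congrFun h3 (some (some i)))
    (by
      intro i
      rcases i with _ | i
      · rw [Function.update_self]
        have h5 : (X none - 1 : MvPolynomial (Option (Option ρ)) ℂ) = X none + (-1) := by ring
        rw [h5]
        refine (Top.X (w21 (Option ρ)) none).add_lo ?_
        have h6 : wlt (w21 (Option ρ)) (0 + 1) (-1 : MvPolynomial (Option (Option ρ)) ℂ) :=
          wlt_neg (wh_one (w21 (Option ρ))).wlt
        exact wlt_mono (by norm_num [w21]) h6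
      · rw [Function.update_of_ne (by simp)]
        exact top_ev1 (hx (some i)))
  refine ⟨h1, ?_⟩
  have hd : ∏ o : Option (Option ρ), (o.elim 2 fun _ => q) = 2 * q ^ (Fintype.card ρ + 1) := by
    rw [Fintype.prod_option]
    change 2 * ∏ _i : Option ρ, q = _
    rw [Finset.prod_const, Finset.card_univ, Fintype.card_option]
  have hw : ∏ o : Option (Option ρ), w21 (Option ρ) o = 2 := by
    rw [Fintype.prod_option]
    simp [w21]
  rw [hd, hw, mul_comm] at h2
  exact Nat.eq_of_mul_eq_mul_left two_pos h2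

/-- the count -/
theorem cnt_FF {q E n : ℕ} (hq : 0 < q) {ψ : MvPolynomial (Option (Option ρ)) ℂ} (h : St ρ q E ψ) {ε : ℂ}
    (hε : ε ≠ 0) (hφ : Nd (Option ρ) q (FF ψ n ε)) :
    St (Option ρ) q (E + q ^ (Fintype.card ρ + 1)) (FF ψ n ε) := by
  obtain ⟨h1, h2⟩ := cnt_sheet h n ε
  obtain ⟨h3, h4⟩ := cnt_quadric hq hφ
  obtain ⟨h5, h6⟩ := cnt_mul (critOne (FF ψ n ε)) none (1 - X (some none)) (X none - 1) h1 h3
  have h7 : Ideal.span (Set.range (critOne (FF ψ n ε))) =
      Ideal.span (Set.range (Function.update (critOne (FF ψ n ε)) none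
        ((1 - X (some none)) * (X none - 1)))) := by
    rw [← cnt_unit (critOne (FF ψ n ε)) none (C ε) ((1 - X (some none)) * (X none - 1)) ε hε
      (by rw [sub_self]; exact Ideal.zero_mem _), ← critOne_FF_none, Function.update_eq_self]
  refine ⟨hφ.wh, hφ.ndx, hφ.nd, ?_, ?_⟩
  · rw [h7]; exact h5
  · unfold Enum
    rw [h7, h6, h2, h4]

/-! ### the choice of `ε` -/

theorem eval_up_pt (F : MvPolynomial (Option (Option ρ)) ℂ) (s w : ℂ) (x : Option ρ → ℂ) :
    eval (vec s w x) (up F) = eval (fun o : Option (Option ρ) => o.elim s x) F := by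
  rw [eval_up]
  congr 2
  funext o
  rcases o with _ | o <;> rfl

/-- finitely many `z` with `ψ_z(1; 0, z) = 0` -/
theorem finite_bad {q E : ℕ} (hq : 0 < q) {ψ : MvPolynomial (Option (Option ρ)) ℂ} (h : St ρ q E ψ) :
    {p : Option (Option ρ) → ℂ | p none = 1 ∧ p (some none) = 0 ∧
      ∀ r, eval p (pderiv (some (some r)) ψ) = 0}.Finite := by
  have h1 := UO.FR_bez (ι := ρ) hq (φ := ψ) (by exact h.wh) (by exact h.ndx)
    (χ := X none - 1) (χ' := X none) (F := X (some none)) (a := 2) (b := 1) (n := 1) (by norm_num) (by norm_num)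
    (wh_X (vw ρ) none)
    (by
      have h5 : (X none - 1 : MvPolynomial (Option (Option ρ)) ℂ) = X none + (-1) := by ring
      rw [h5]
      refine (Top.X (vw ρ) none).add_lo ?_
      have h6 : wlt (vw ρ) (0 + 1) (-1 : MvPolynomial (Option (Option ρ)) ℂ) :=
        wlt_neg (wh_one (vw ρ)).wlt
      exact wlt_mono (by norm_num [vw]) h6)
    (wh_X (vw ρ) (some none))
    (by
      intro p h1 h2
      rw [eval_X] at h1 h2
      exact ⟨h1, h2⟩) rfl
  refine (finite_zeros _ h1.1).subset ?_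
  rintro p ⟨h2, h3, h4⟩ g hg
  refine eval_span_zero' ?_ hg
  rintro _ ⟨o, rfl⟩
  rcases o with _ | _ | r
  · change eval p (X none - 1) = 0
    rw [map_sub, eval_X, map_one, h2, sub_self]
  · change eval p (X (some none)) = 0
    rw [eval_X, h3]
  · exact h4 r

/-- **the states of T1** -/
theorem t1_state {q E : ℕ} (hq : 3 ≤ q) {ψ : MvPolynomial (Option (Option ρ)) ℂ} (h : St ρ q E ψ) :
    ∃ (φ : P3 ρ) (c : ℂ) (F G : P3 ρ), c ≠ 0 ∧ St (Option ρ) q (E + q ^ (Fintype.card ρ + 1)) φ ∧
      wh (vw (Option ρ)) 2 F ∧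
      pderiv (some none) φ = C c * (X (some none) ^ (q - 2) * F) + X (some (some none)) * G ∧
      (∀ (s : ℂ) (z : ρ → ℂ), eval (zpt s 0 0 z) F = 0 →
        (∀ r, eval (zpt s 0 0 z) (pderiv (some (some (some r))) φ) = 0) → s = 0 ∧ z = 0) ∧
      (∀ z : ρ → ℂ, (∀ r, eval (zpt 0 0 0 z) (pderiv (some (some (some r))) φ) = 0) → z = 0) ∧
      (∀ (s w : ℂ) (x : Option ρ → ℂ), (∀ o, eval (vec s w x) (pderiv (some o) φ) = 0) → x none = 0 →
        w = 0) := by
  obtain ⟨n, rfl⟩ : ∃ n, q = n + 3 := ⟨q - 3, by omega⟩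
  have hA0 : ∀ p : Option (Option (Option ρ)) → ℂ, p none = 0 → (∀ i, p (some (some i)) = 0) →
      eval p (AA ρ n) = 0 → p (some none) = 0 := by
    intro p h0 h1 h2
    unfold AA at h2
    simp only [map_mul, map_sub, map_pow, eval_X, h0, h1, sub_zero, zero_sub] at h2
    by_contra hw
    refine absurd h2 (mul_ne_zero (mul_ne_zero (pow_ne_zero _ hw) hw) (neg_ne_zero.mpr (pow_ne_zero _ hw)))
  have e1 := gen_nd (q := n + 3) (by exact h.wh) (by exact h.nd) (wh_BB (ρ := ρ) (q := n + 3) rfl)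
    (pderiv_BB_w (ρ := ρ) n) hA0
  set bad : Set ℂ := (fun p : Option (Option ρ) → ℂ => eval p (pderiv (some none) ψ) *
    (((n : ℂ) + 1) * ((n : ℂ) + 3) / 2)) '' {p : Option (Option ρ) → ℂ | p none = 1 ∧ p (some none) = 0 ∧
      ∀ r, eval p (pderiv (some (some r)) ψ) = 0} with hbad
  have hfb : bad.Finite := (finite_bad (by omega) h).image _
  have e2 : ∀ᶠ ε in 𝓝 (0 : ℂ), ε ∉ bad \ {0} := by
    have h1 : IsOpen (bad \ {0})ᶜ := (hfb.subset Set.sdiff_subset).isClosed.isOpen_compl
    exact h1.mem_nhds (by simp)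
  obtain ⟨ε, hε, hN, hB⟩ := exists_ne_of_eventually (e1.and e2)
  have hN' : Nd (Option ρ) (n + 3) (FF ψ n ε) := hN hε
  have hψ1 : ∀ v : Option ρ, wh (vw ρ) (n + 3) (pderiv (some v) ψ) := fun v =>
    wh_pderiv h.wh _ _ (by rcases v with _ | v <;> rfl)
  refine ⟨FF ψ n ε, ε, X none - X (some none) ^ 2,
    -(C ε * (X (some none) ^ n * (X none - X (some none) ^ 2))), hε, cnt_FF (by omega) h hε hN', ?_, ?_, ?_, ?_, ?_⟩
  · refine wh_sub (wh_X (vw (Option ρ)) none) ?_
    have := wh_pow (wh_X (vw (Option ρ)) (some none)) 2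
    simpa [vw] using this
  · rw [FF_w, show n + 3 - 2 = n + 1 by omega]
    unfold AA
    ring
  · intro s z h1 h2
    have hs : s = 0 := by
      simpa [zpt, vec] using h1
    subst hs
    refine ⟨rfl, ?_⟩
    have h3 := h.ndx (fun o : Option (Option ρ) => o.elim 0 fun o : Option ρ => o.elim 0 z) rfl rfl (fun r => by
      have h4 := h2 r
      rw [FF_z] at h4
      unfold zpt at h4
      rw [eval_up_pt] at h4
      exact h4)
    funext r
    exact congrFun h3 (some (some r))
  · intro z h2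
    have h3 := h.ndx (fun o : Option (Option ρ) => o.elim 0 fun o : Option ρ => o.elim 0 z) rfl rfl (fun r => by
      have h4 := h2 r
      rw [FF_z] at h4
      unfold zpt at h4
      rw [eval_up_pt] at h4
      exact h4)
    funext r
    exact congrFun h3 (some (some r))
  · intro s w x hx hx0
    by_contra hw
    have h1 := hx none
    rw [FF_w, map_mul, eval_C] at h1
    have h2 := (mul_eq_zero.mp h1).resolve_left hε
    unfold AA at h2
    have h2' : w ^ n * (w - x none) * (s - w ^ 2) = 0 := by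
      simpa [vec] using h2
    rw [hx0, sub_zero] at h2'
    have hs : s = w ^ 2 := by
      rcases mul_eq_zero.mp h2' with h3 | h3
      · exact absurd h3 (mul_ne_zero (pow_ne_zero _ hw) hw)
      · exact sub_eq_zero.mp h3
    have h3 := hx (some none)
    rw [FF_b, map_add, map_mul, eval_C, eval_up_pt] at h3
    have h4 : eval (vec s w x) (BBb ρ n) = -(w ^ (n + 3) * (2 / (((n : ℂ) + 1) * ((n : ℂ) + 3)))) := by
      have e : eval (vec s w x) (BBb ρ n) = ((n : ℂ) + 3)⁻¹ * (w ^ (n + 3) - x none ^ (n + 3)) -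
          ((n : ℂ) + 1)⁻¹ * (s * (w ^ (n + 1) - x none ^ (n + 1))) := by
        unfold BBb
        simp [vec]
      rw [e, hx0, hs, zero_pow (by omega), zero_pow (by omega), sub_zero, sub_zero]
      have h5 : (n : ℂ) + 1 ≠ 0 := by exact_mod_cast Nat.succ_ne_zero n
      have h6 : (n : ℂ) + 3 ≠ 0 := by exact_mod_cast Nat.succ_ne_zero (n + 2)
      field_simp
      ring
    rw [h4] at h3
    apply hB
    refine ⟨?_, hε⟩
    refine ⟨fun o => w⁻¹ ^ vw ρ o * (o.elim s x), ⟨?_, ?_, ?_⟩, ?_⟩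
    · change w⁻¹ ^ 2 * s = 1
      rw [hs, ← mul_pow, inv_mul_cancel₀ hw, one_pow]
    · change w⁻¹ ^ 1 * x none = 0
      rw [hx0, mul_zero]
    · intro r
      have h5 := hx (some (some r))
      rw [FF_z, eval_up_pt] at h5
      have h6 := eval_wh46 (hψ1 (some r)) w⁻¹ (fun o : Option (Option ρ) => o.elim s x)
      rw [h5, mul_zero] at h6
      exact h6
    · change eval (fun o => w⁻¹ ^ vw ρ o * (o.elim s x)) (pderiv (some none) ψ) * _ = ε
      rw [eval_wh46 (hψ1 none) w⁻¹ (fun o : Option (Option ρ) => o.elim s x)]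
      have h5 : eval (fun o : Option (Option ρ) => o.elim s x) (pderiv (some none) ψ) =
          ε * (w ^ (n + 3) * (2 / (((n : ℂ) + 1) * ((n : ℂ) + 3)))) := by
        linear_combination h3
      rw [h5]
      have h6 : (n : ℂ) + 1 ≠ 0 := by exact_mod_cast Nat.succ_ne_zero n
      have h7 : (n : ℂ) + 3 ≠ 0 := by exact_mod_cast Nat.succ_ne_zero (n + 2)
      have h8 : w⁻¹ ^ (n + 3) * w ^ (n + 3) = 1 := by rw [← mul_pow, inv_mul_cancel₀ hw, one_pow]
      have h9 : (2 / (((n : ℂ) + 1) * ((n : ℂ) + 3))) * (((n : ℂ) + 1) * ((n : ℂ) + 3) / 2) = 1 := by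
        field_simp
      calc w⁻¹ ^ (n + 3) * (ε * (w ^ (n + 3) * (2 / (((n : ℂ) + 1) * ((n : ℂ) + 3))))) *
            (((n : ℂ) + 1) * ((n : ℂ) + 3) / 2)
          = ε * (w⁻¹ ^ (n + 3) * w ^ (n + 3)) *
            ((2 / (((n : ℂ) + 1) * ((n : ℂ) + 3))) * (((n : ℂ) + 1) * ((n : ℂ) + 3) / 2)) := by ring
        _ = ε := by rw [h8, h9]; ring

end

end EY.T1S
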