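import Pool.Agent.helper2.EY.T1S
import Pool.Agent.helper39.EY.T1

set_option autoImplicit false

/-!
# EY-T1W: the window `[(q + 3/2) q^(K+1), (q + 2) q^(K+1)]` of the step T1
-/

namespace EY.T1S

open MvPolynomial

/-- every `m` with `(2 q + 3) q^(K+1) ≤ 2 m`, `m ≤ (q + 2) q^(K+1)` -/
theorem t1_win {q K : ℕ} (hq : 3 ≤ q)
    (hU : ∀ E : ℕ, 2 * E ≤ q ^ (K + 1) → ∃ φ : MvPolynomial (Option (Option (Fin K))) ℂ, St (Fin K) q E φ)
    {m : ℕ} (h1 : (2 * q + 3) * q ^ (K + 1) ≤ 2 * m) (h2 : m ≤ (q + 2) * q ^ (K + 1)) :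
    Rz q (K + 4) m := by
  obtain ⟨E, hE⟩ : ∃ E, m + E = (q + 2) * q ^ (K + 1) := ⟨_, Nat.add_sub_cancel' h2⟩
  have e1 : (2 * q + 3) * q ^ (K + 1) = 2 * (q * q ^ (K + 1)) + 3 * q ^ (K + 1) := by ring
  have e2 : (q + 2) * q ^ (K + 1) = q * q ^ (K + 1) + 2 * q ^ (K + 1) := by ring
  have hE2 : 2 * E ≤ q ^ (K + 1) := by omega
  obtain ⟨ψ, hψ⟩ := hU E hE2
  obtain ⟨φ, c, F, G, hc, hS, hF, hw, hA, hz, hb⟩ := t1_state hq hψ
  rw [Fintype.card_fin] at hS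
  have hp : 0 < q ^ (K + 1) := pow_pos (by omega) _
  have e3 : q ^ (K + 2) = q * q ^ (K + 1) := by rw [pow_succ']
  have e4 : q ^ (K + 1) = q * q ^ K := by rw [pow_succ']
  have h3 := t1_rz (ρ := Fin K) (q := q) (a := q - 2) (e := 2) (E := E + q ^ (K + 1)) hq one_le_two (by omega) hS
    (by
      rw [Fintype.card_fin]
      have : q ^ (K + 1) ≤ q * q ^ (K + 1) := Nat.le_mul_of_pos_left _ (by omega)
      omega) hc F G hF hw hA hz hb
  rw [Fintype.card_fin] at h3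
  have h4 : q ^ (K + 1) + q ^ (K + 2) - (E + q ^ (K + 1)) + (q + (q - 2) + 2) * q ^ K = m := by
    have e5 : (q + (q - 2) + 2) * q ^ K = 2 * q ^ (K + 1) := by
      rw [e4, show q + (q - 2) + 2 = 2 * q by omega]; ring
    rw [e5, e3]
    have : q ^ (K + 1) ≤ q * q ^ (K + 1) := Nat.le_mul_of_pos_left _ (by omega)
    omega
  rw [h4] at h3
  exact h3

end EY.T1S
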